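import Pool.Agent.Maker22.Defs

/-!
Cliques as winning sets.
-/

set_option autoImplicit false
set_option linter.unusedSectionVars false
set_option linter.unusedVariables false

namespace Pool.Agent.Maker22

open Finset

/-! cliques -/

variable {N : ℕ}

/-- edges inside a vertex set -/
def edg (S : Finset (Fin N)) : Finset (Sym2 (Fin N)) := S.offDiag.image Sym2.mk.uncurry

lemma mem_edg {S : Finset (Fin N)} {a b : Fin N} : s(a, b) ∈ edg S ↔ a ∈ S ∧ b ∈ S ∧ a ≠ b := by
  unfold edg
  simp only [Finset.mem_image, Finset.mem_offDiag, Prod.exists, Function.uncurry_apply_pair]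
  constructor
  · rintro ⟨c, d, ⟨hc, hd, hcd⟩, h⟩
    rw [Sym2.eq_iff] at h
    rcases h with ⟨rfl, rfl⟩ | ⟨rfl, rfl⟩
    · exact ⟨hc, hd, hcd⟩
    · exact ⟨hd, hc, hcd.symm⟩
  · rintro ⟨ha, hb, hab⟩
    exact ⟨a, b, ⟨ha, hb, hab⟩, rfl⟩

lemma card_edg (S : Finset (Fin N)) : (edg S).card = S.card.choose 2 :=
  Sym2.card_image_offDiag S

lemma edg_inter (S S' : Finset (Fin N)) : edg S ∩ edg S' = edg (S ∩ S') := by
  ext e
  induction e with
  | h a b =>
      rw [mem_inter, mem_edg, mem_edg, mem_edg, mem_inter, mem_inter]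
      tauto

/-- vertices covered by a set of edges -/
def cov (E : Finset (Sym2 (Fin N))) : Finset (Fin N) := univ.filter (fun v => ∃ e ∈ E, v ∈ e)

/-- loops in a set of edges -/
def loops (E : Finset (Sym2 (Fin N))) : Finset (Sym2 (Fin N)) := E.filter (fun e => e.IsDiag)

/-- the coefficients for cliques -/
noncomputable def cc (l : ℝ) (E : Finset (Sym2 (Fin N))) : ℝ :=
  if E.card ≤ 1 then 0 else l * 5 ^ ((cov E).card + (loops E).card)

/-- vertex sets of size `q` -/
def fam (N q : ℕ) : Finset (Finset (Fin N)) := powersetCard q univ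

lemma mem_fam {q : ℕ} {S : Finset (Fin N)} : S ∈ fam N q ↔ S.card = q := by
  simp [fam, mem_powersetCard]

lemma card_fam (q : ℕ) : (fam N q).card = N.choose q := by
  simp [fam, card_powersetCard]

lemma count_fiber {q : ℕ} {S : Finset (Fin N)} (hS : S.card = q) (R : Finset (Fin N)) :
    ((fam N q).filter (fun S' => S ∩ S' = R)).card ≤ (N - q).choose (q - R.card) := by
  have h1 : ((univ : Finset (Fin N)) \ S).card = N - q := by
    rw [card_sdiff_of_subset (subset_univ S), card_univ, Fintype.card_fin, hS]
  have h2 : (powersetCard (q - R.card) ((univ : Finset (Fin N)) \ S)).card =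
      (N - q).choose (q - R.card) := by
    rw [card_powersetCard, h1]
  rw [← h2]
  refine Finset.card_le_card_of_injOn (fun S' => S' \ S) ?_ ?_
  · intro S' hS'
    rw [Finset.mem_coe, mem_filter, mem_fam] at hS'
    rw [Finset.mem_coe, mem_powersetCard]
    refine ⟨Finset.sdiff_subset_sdiff (subset_univ _) (Finset.Subset.refl _), ?_⟩
    have h3 := Finset.card_sdiff_add_card_inter S' S
    rw [Finset.inter_comm S' S, hS'.2, hS'.1] at h3
    show (S' \ S).card = q - R.card
    omega
  · intro S1 h1 S2 h2 h
    rw [Finset.mem_coe, mem_filter] at h1 h2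
    simp only at h
    have e1 : S1 = (S1 \ S) ∪ (S ∩ S1) := by
      rw [Finset.inter_comm]; exact (Finset.sdiff_union_inter S1 S).symm
    have e2 : S2 = (S2 \ S) ∪ (S ∩ S2) := by
      rw [Finset.inter_comm]; exact (Finset.sdiff_union_inter S2 S).symm
    rw [e1, e2, h, h1.2, h2.2]

lemma count_one {q : ℕ} {S : Finset (Fin N)} (hS : S.card = q) (g : ℕ → ℝ) (hg : ∀ s, 0 ≤ g s) :
    ∑ S' ∈ fam N q, g (S ∩ S').card ≤
      ∑ s ∈ range (q + 1), (q.choose s : ℝ) * ((N - q).choose (q - s) : ℝ) * g s := by
  have h1 : ∑ S' ∈ fam N q, g (S ∩ S').card =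
      ∑ R ∈ S.powerset, ∑ S' ∈ (fam N q).filter (fun S' => S ∩ S' = R), g (S ∩ S').card := by
    rw [Finset.sum_fiberwise_of_maps_to]
    intro S' _
    rw [mem_powerset]
    exact inter_subset_left
  rw [h1]
  have h2 : ∀ R ∈ S.powerset,
      ∑ S' ∈ (fam N q).filter (fun S' => S ∩ S' = R), g (S ∩ S').card ≤
        ((N - q).choose (q - R.card) : ℝ) * g R.card := by
    intro R _
    calc ∑ S' ∈ (fam N q).filter (fun S' => S ∩ S' = R), g (S ∩ S').card
        = ∑ S' ∈ (fam N q).filter (fun S' => S ∩ S' = R), g R.card := by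
          refine Finset.sum_congr rfl (fun S' hS' => ?_)
          rw [mem_filter] at hS'
          rw [hS'.2]
      _ = (((fam N q).filter (fun S' => S ∩ S' = R)).card : ℝ) * g R.card := by
          rw [Finset.sum_const, nsmul_eq_mul]
      _ ≤ _ := by
          refine mul_le_mul_of_nonneg_right ?_ (hg _)
          exact_mod_cast count_fiber hS R
  refine (Finset.sum_le_sum h2).trans ?_
  have h3 := Finset.sum_powerset_apply_card (fun s => ((N - q).choose (q - s) : ℝ) * g s) (x := S)
  rw [h3, hS]
  refine le_of_eq (Finset.sum_congr rfl (fun s _ => ?_))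
  rw [nsmul_eq_mul]
  ring

lemma cov_mono {E E' : Finset (Sym2 (Fin N))} (h : E ⊆ E') : cov E ⊆ cov E' := by
  intro v hv
  unfold cov at hv ⊢
  rw [mem_filter] at hv ⊢
  obtain ⟨h1, e, he, hve⟩ := hv
  exact ⟨h1, e, h he, hve⟩

lemma loops_mono {E E' : Finset (Sym2 (Fin N))} (h : E ⊆ E') : loops E ⊆ loops E' :=
  Finset.filter_subset_filter _ h

lemma cc_nonneg {l : ℝ} (hl : 0 < l) (E : Finset (Sym2 (Fin N))) : 0 ≤ cc l E := by
  unfold cc
  split_ifs
  · exact le_refl _
  · positivity

lemma mem_of_cov {S : Finset (Fin N)} {E : Finset (Sym2 (Fin N))} (h : E ⊆ edg S) {a : Fin N}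
    (ha : a ∈ cov E) : a ∈ S := by
  unfold cov at ha
  rw [mem_filter] at ha
  obtain ⟨-, e, he, hae⟩ := ha
  have h1 := h he
  induction e with
  | h c d =>
    rw [mem_edg] at h1
    rw [Sym2.mem_iff] at hae
    rcases hae with rfl | rfl
    · exact h1.1
    · exact h1.2.1

lemma span_count {S : Finset (Fin N)} {E : Finset (Sym2 (Fin N))} (h : E ⊆ edg S)
    {z : Sym2 (Fin N)} (hz : z ∉ edg S) :
    (cov E).card + (loops E).card + 1 ≤ (cov (insert z E)).card + (loops (insert z E)).card := by
  have hc := Finset.card_le_card (cov_mono (Finset.subset_insert z E))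
  have hl := Finset.card_le_card (loops_mono (Finset.subset_insert z E))
  induction z with
  | h a b =>
    by_cases hab : a = b
    · have h1 : loops E ⊂ loops (insert s(a, b) E) := by
        rw [Finset.ssubset_iff_of_subset (loops_mono (Finset.subset_insert _ E))]
        refine ⟨s(a, b), ?_, ?_⟩
        · unfold loops
          rw [mem_filter]
          exact ⟨Finset.mem_insert_self _ _, by rw [Sym2.mk_isDiag_iff]; exact hab⟩
        · intro h2
          unfold loops at h2
          rw [mem_filter] at h2
          exact hz (h h2.1)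
      have := Finset.card_lt_card h1
      omega
    · have h1 : cov E ⊂ cov (insert s(a, b) E) := by
        rw [Finset.ssubset_iff_of_subset (cov_mono (Finset.subset_insert _ E))]
        rw [mem_edg] at hz
        by_cases ha : a ∈ S
        · have hb : b ∉ S := fun hb => hz ⟨ha, hb, hab⟩
          refine ⟨b, ?_, fun h2 => hb (mem_of_cov h h2)⟩
          unfold cov
          rw [mem_filter]
          exact ⟨mem_univ _, s(a, b), Finset.mem_insert_self _ _, by simp⟩
        · refine ⟨a, ?_, fun h2 => ha (mem_of_cov h h2)⟩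
          unfold cov
          rw [mem_filter]
          exact ⟨mem_univ _, s(a, b), Finset.mem_insert_self _ _, by simp⟩
      have := Finset.card_lt_card h1
      omega

lemma coef_clique {l : ℝ} (hl : 0 < l) :
    Coef (edg : Finset (Fin N) → Finset (Sym2 (Fin N))) (cc l) l := by
  refine ⟨hl, cc_nonneg hl, ?_, ?_, ?_, ?_⟩
  · intro E hE
    unfold cc
    rw [if_pos hE]
  · intro z E
    by_cases h : E.card ≤ 1
    · unfold cc
      rw [if_pos h]
      exact cc_nonneg hl _
    · have h1 : ¬ (insert z E).card ≤ 1 := by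
        have := Finset.card_le_card (Finset.subset_insert z E)
        omega
      unfold cc
      rw [if_neg h, if_neg h1]
      apply mul_le_mul_of_nonneg_left _ hl.le
      apply pow_le_pow_right₀ (by norm_num)
      exact add_le_add (Finset.card_le_card (cov_mono (Finset.subset_insert z E)))
        (Finset.card_le_card (loops_mono (Finset.subset_insert z E)))
  · intro x y hxy
    unfold cc
    rw [if_neg (by rw [Finset.card_pair hxy]; norm_num)]
    exact le_mul_of_one_le_right hl.le (one_le_pow₀ (by norm_num))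
  · intro S z E hE hz
    by_cases h : E.card ≤ 1
    · have h2 : cc l E = 0 := by unfold cc; rw [if_pos h]
      rw [h2, mul_zero]
      exact cc_nonneg hl _
    · have h1 : ¬ (insert z E).card ≤ 1 := by
        have := Finset.card_le_card (Finset.subset_insert z E)
        omega
      unfold cc
      rw [if_neg h, if_neg h1]
      have h3 : (5 : ℝ) * (l * 5 ^ ((cov E).card + (loops E).card))
          = l * 5 ^ ((cov E).card + (loops E).card + 1) := by
        rw [pow_succ]; ring
      rw [h3]
      apply mul_le_mul_of_nonneg_left _ hl.le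
      exact pow_le_pow_right₀ (by norm_num) (span_count hE hz)


lemma kk_clique {l : ℝ} (hl : 0 < l) (R : Finset (Fin N)) :
    kk (cc l) (edg R) ≤ if 3 ≤ R.card then l * (5 ^ R.card * 2 ^ (R.card.choose 2)) else 0 := by
  unfold kk
  by_cases hR : 3 ≤ R.card
  · rw [if_pos hR]
    have hb : ∀ E ∈ (edg R).powerset, cc l E ≤ l * 5 ^ R.card := by
      intro E hE
      rw [mem_powerset] at hE
      unfold cc
      split_ifs with h
      · positivity
      · have h1 : loops E = ∅ := by
          rw [Finset.eq_empty_iff_forall_notMem]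
          intro e he
          unfold loops at he
          rw [mem_filter] at he
          obtain ⟨he1, he2⟩ := he
          have he3 := hE he1
          induction e with
          | h a b =>
            rw [mem_edg] at he3
            exact he3.2.2 he2
        have h2 : cov E ⊆ R := by
          intro v hv
          unfold cov at hv
          rw [mem_filter] at hv
          obtain ⟨-, e, he, hve⟩ := hv
          have he3 := hE he
          induction e with
          | h a b =>
            rw [mem_edg] at he3
            rw [Sym2.mem_iff] at hve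
            rcases hve with rfl | rfl
            · exact he3.1
            · exact he3.2.1
        rw [h1, Finset.card_empty, Nat.add_zero]
        exact mul_le_mul_of_nonneg_left
          (pow_le_pow_right₀ (by norm_num) (Finset.card_le_card h2)) hl.le
    have h3 := Finset.sum_le_card_nsmul _ _ _ hb
    rw [card_powerset, card_edg, nsmul_eq_mul] at h3
    refine h3.trans (le_of_eq ?_)
    push_cast
    ring
  · rw [if_neg hR]
    refine le_of_eq (Finset.sum_eq_zero fun E hE => ?_)
    rw [mem_powerset] at hE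
    have h1 := Finset.card_le_card hE
    rw [card_edg] at h1
    have h2 : R.card.choose 2 ≤ 1 := by
      have h3 : R.card ≤ 2 := by omega
      calc R.card.choose 2 ≤ Nat.choose 2 2 := Nat.choose_le_choose 2 h3
        _ = 1 := by norm_num
    unfold cc
    rw [if_pos (h1.trans h2)]

lemma w_clique_7571 {q : ℕ} {S : Finset (Fin N)} (hS : S.card = q) :
    w edg ∅ S = (1 / 2 : ℝ) ^ (q.choose 2) := by
  unfold w
  rw [Finset.sdiff_empty, card_edg, hS]

lemma TT_clique (q : ℕ) : TT edg (fam N q) ∅ = (N.choose q : ℝ) / 2 ^ (q.choose 2) := by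
  unfold TT
  rw [Finset.sum_congr rfl (fun S hS => w_clique_7571 (mem_fam.1 hS)), Finset.sum_const, card_fam,
    nsmul_eq_mul, one_div, inv_pow, div_eq_mul_inv]

lemma PP_clique {l : ℝ} (hl : 0 < l) (q : ℕ) :
    PP edg (cc l) (fam N q) ∅ ≤ l * ((N.choose q : ℝ) / (2 ^ (q.choose 2)) ^ 2 *
      ∑ s ∈ Icc 3 q, (q.choose s : ℝ) * ((N - q).choose (q - s) : ℝ) *
        (5 ^ s * 2 ^ (s.choose 2))) := by
  set g : ℕ → ℝ := fun s => if 3 ≤ s then l * (5 ^ s * 2 ^ (s.choose 2)) else 0 with hg
  have hg0 : ∀ s, 0 ≤ g s := by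
    intro s
    simp only [hg]
    split_ifs
    · positivity
    · exact le_rfl
  set h : ℝ := (1 / 2 : ℝ) ^ (q.choose 2) with hh
  have hh0 : 0 < h := by positivity
  have h1 : ∀ S ∈ fam N q, ∀ S' ∈ fam N q,
      mm edg (cc l) ∅ S S' ≤ h * h * g (S ∩ S').card := by
    intro S hS S' hS'
    unfold mm
    rw [w_clique_7571 (mem_fam.1 hS), w_clique_7571 (mem_fam.1 hS'), Finset.sdiff_empty, edg_inter]
    exact mul_le_mul_of_nonneg_left (kk_clique hl _) (by positivity)
  have h2 : ∀ S ∈ fam N q, ∑ S' ∈ fam N q, mm edg (cc l) ∅ S S' ≤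
      h * h * ∑ s ∈ range (q + 1), (q.choose s : ℝ) * ((N - q).choose (q - s) : ℝ) * g s := by
    intro S hS
    refine (Finset.sum_le_sum (h1 S hS)).trans ?_
    rw [← Finset.mul_sum]
    exact mul_le_mul_of_nonneg_left (count_one (mem_fam.1 hS) g hg0) (by positivity)
  have h3 : ∑ s ∈ range (q + 1), (q.choose s : ℝ) * ((N - q).choose (q - s) : ℝ) * g s =
      l * ∑ s ∈ Icc 3 q, (q.choose s : ℝ) * ((N - q).choose (q - s) : ℝ) *
        (5 ^ s * 2 ^ (s.choose 2)) := by
    have e1 : Icc 3 q = (range (q + 1)).filter (fun s => 3 ≤ s) := by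
      ext s
      simp only [mem_Icc, mem_filter, mem_range]
      omega
    rw [e1, Finset.sum_filter, Finset.mul_sum]
    refine Finset.sum_congr rfl fun s _ => ?_
    simp only [hg]
    split_ifs
    · ring
    · simp
  unfold PP
  refine (Finset.sum_le_sum h2).trans (le_of_eq ?_)
  have e2 : h * h = (((2 : ℝ) ^ (q.choose 2)) ^ 2)⁻¹ := by
    rw [hh, one_div, inv_pow, ← mul_inv, pow_two]
  rw [Finset.sum_const, card_fam, nsmul_eq_mul, h3, e2, div_eq_mul_inv]
  ring


end Pool.Agent.Maker22
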