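import Mathlib

/-!
Weights for the (2:2) Maker game: definitions.
-/

set_option autoImplicit false
set_option linter.unusedSectionVars false
set_option linter.unusedVariables false

namespace Pool.Agent.Maker22

open Finset

variable {β ι : Type*} [DecidableEq β] [DecidableEq ι]

/-- weight of the set with index `i` -/
noncomputable def w (A : ι → Finset β) (M : Finset β) (i : ι) : ℝ :=
  (1 / 2 : ℝ) ^ (A i \ M).card

/-- sum of the coefficients of the subsets -/
noncomputable def kk (c : Finset β → ℝ) (I : Finset β) : ℝ := ∑ E ∈ I.powerset, c E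

/-- weight of a pair -/
noncomputable def mm (A : ι → Finset β) (c : Finset β → ℝ) (M : Finset β) (i j : ι) : ℝ :=
  w A M i * w A M j * kk c ((A i ∩ A j) \ M)

/-- first moment -/
noncomputable def TT (A : ι → Finset β) (F : Finset ι) (M : Finset β) : ℝ := ∑ i ∈ F, w A M i

/-- second moment -/
noncomputable def PP (A : ι → Finset β) (c : Finset β → ℝ) (F : Finset ι) (M : Finset β) : ℝ :=
  ∑ i ∈ F, ∑ j ∈ F, mm A c M i j

/-- potential -/
noncomputable def LL (A : ι → Finset β) (c : Finset β → ℝ) (F : Finset ι) (M : Finset β) : ℝ :=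
  TT A F M - PP A c F M

/-- pair weight if the point meets the pair -/
noncomputable def uu (A : ι → Finset β) (c : Finset β → ℝ) (M : Finset β) (x : β) (i j : ι) : ℝ :=
  if x ∈ A i ∪ A j then mm A c M i j else 0

/-- the gain of a pair when Maker collapses a common point -/
noncomputable def ll (A : ι → Finset β) (c : Finset β → ℝ) (M : Finset β) (x : β) (i j : ι) : ℝ :=
  if x ∈ A i ∩ A j then w A M i * w A M j *
    (kk c ((A i ∩ A j) \ M) - 2 * kk c (((A i ∩ A j) \ M).erase x)) else 0

noncomputable def Tx (A : ι → Finset β) (F : Finset ι) (M : Finset β) (x : β) : ℝ :=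
  ∑ i ∈ F, if x ∈ A i then w A M i else 0

noncomputable def Px (A : ι → Finset β) (c : Finset β → ℝ) (F : Finset ι) (M : Finset β) (x : β) :
    ℝ := ∑ i ∈ F, ∑ j ∈ F, uu A c M x i j

noncomputable def bb (A : ι → Finset β) (c : Finset β → ℝ) (F : Finset ι) (M : Finset β) (x : β) :
    ℝ := ∑ i ∈ F, ∑ j ∈ F, ll A c M x i j

noncomputable def gg (A : ι → Finset β) (c : Finset β → ℝ) (F : Finset ι) (M : Finset β) (x : β) :
    ℝ := Tx A F M x - Px A c F M x + bb A c F M x

/-- first moment of the sets containing `E` -/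
noncomputable def TE (A : ι → Finset β) (F : Finset ι) (M : Finset β) (E : Finset β) : ℝ :=
  ∑ i ∈ F, if E ⊆ A i then w A M i else 0

/-- conditions on the coefficients -/
structure Coef (A : ι → Finset β) (c : Finset β → ℝ) (l : ℝ) : Prop where
  lpos : 0 < l
  nonneg : ∀ E, 0 ≤ c E
  small : ∀ E : Finset β, E.card ≤ 1 → c E = 0
  mono : ∀ (z : β) (E : Finset β), c E ≤ c (insert z E)
  pair : ∀ x y : β, x ≠ y → l ≤ c {x, y}
  span : ∀ (i : ι) (z : β) (E : Finset β), E ⊆ A i → z ∉ A i → 5 * c E ≤ c (insert z E)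

end Pool.Agent.Maker22
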