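import Mathlib

/-!
Asymptotic estimates for the (2:2) clique game.
-/

set_option autoImplicit false
set_option linter.unusedSectionVars false
set_option linter.unusedVariables false

namespace Pool.Agent.Maker22


open Finset

lemma choose_ratio_nat (N q : ℕ) (hq : q ≤ N) (s : ℕ) (hs : s ≤ q) :
    (N - s).choose (q - s) * N ^ s ≤ N.choose q * q ^ s := by
  induction s with
  | zero => simp
  | succ s ih =>
    have ih' := ih (by omega)
    have hpos : 0 < N - s := by omega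
    have e1 : (N - (s + 1)).choose (q - (s + 1)) * (N - s) = (N - s).choose (q - s) * (q - s) := by
      have h := Nat.add_one_mul_choose_eq (N - (s + 1)) (q - (s + 1))
      have a1 : N - (s + 1) + 1 = N - s := by omega
      have a2 : q - (s + 1) + 1 = q - s := by omega
      rw [a1, a2] at h
      rw [mul_comm, h]
    have e2 : (q - s) * N ≤ q * (N - s) := by
      obtain ⟨a, ha⟩ : ∃ a, q = s + a := ⟨q - s, by omega⟩
      obtain ⟨b, hb⟩ : ∃ b, N = s + b := ⟨N - s, by omega⟩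
      have hab : a ≤ b := by omega
      subst ha
      subst hb
      have : s + a - s = a := by omega
      rw [this]
      have : s + b - s = b := by omega
      rw [this]
      nlinarith
    apply Nat.le_of_mul_le_mul_right _ hpos
    calc (N - (s + 1)).choose (q - (s + 1)) * N ^ (s + 1) * (N - s)
        = ((N - (s + 1)).choose (q - (s + 1)) * (N - s)) * N ^ (s + 1) := by ring
      _ = ((N - s).choose (q - s) * (q - s)) * N ^ (s + 1) := by rw [e1]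
      _ = ((N - s).choose (q - s) * N ^ s) * ((q - s) * N) := by ring
      _ ≤ (N.choose q * q ^ s) * (q * (N - s)) := Nat.mul_le_mul ih' e2
      _ = N.choose q * q ^ (s + 1) * (N - s) := by ring

/-- falling factorial comparison -/
lemma choose_ratio (N q s : ℕ) (hs : s ≤ q) (hq : q ≤ N) :
    ((N - q).choose (q - s) : ℝ) * (N : ℝ) ^ s ≤ (N.choose q : ℝ) * (q : ℝ) ^ s := by
  have h1 : (N - q).choose (q - s) * N ^ s ≤ N.choose q * q ^ s :=
    (Nat.mul_le_mul_right _ (Nat.choose_le_choose _ (by omega))).trans (choose_ratio_nat N q hq s hs)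
  exact_mod_cast h1

lemma three_le : (3 : ℝ) ≤ 2 ^ ((8 : ℝ) / 5) := by
  have h : (3 : ℝ) = ((3 : ℝ) ^ (5 : ℕ)) ^ ((1 : ℝ) / 5) := by
    rw [← Real.rpow_natCast, ← Real.rpow_mul (by norm_num)]; norm_num
  have h2 : (2 : ℝ) ^ ((8 : ℝ) / 5) = ((2 : ℝ) ^ (8 : ℕ)) ^ ((1 : ℝ) / 5) := by
    rw [← Real.rpow_natCast, ← Real.rpow_mul (by norm_num)]; norm_num
  rw [h2]
  calc (3 : ℝ) = ((3 : ℝ) ^ (5 : ℕ)) ^ ((1 : ℝ) / 5) := h
    _ ≤ _ := Real.rpow_le_rpow (by norm_num) (by norm_num) (by norm_num)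

lemma five_le : (5 : ℝ) ≤ 2 ^ ((7 : ℝ) / 3) := by
  have h : (5 : ℝ) = ((5 : ℝ) ^ (3 : ℕ)) ^ ((1 : ℝ) / 3) := by
    rw [← Real.rpow_natCast, ← Real.rpow_mul (by norm_num)]; norm_num
  have h2 : (2 : ℝ) ^ ((7 : ℝ) / 3) = ((2 : ℝ) ^ (7 : ℕ)) ^ ((1 : ℝ) / 3) := by
    rw [← Real.rpow_natCast, ← Real.rpow_mul (by norm_num)]; norm_num
  rw [h2]
  calc (5 : ℝ) = ((5 : ℝ) ^ (3 : ℕ)) ^ ((1 : ℝ) / 3) := h
    _ ≤ _ := Real.rpow_le_rpow (by norm_num) (by norm_num) (by norm_num)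

/-- the terms of the second moment; `L` is the binary logarithm of `N`, `D` that of `q` -/
lemma term_small {N q s : ℕ} {L D : ℝ} (hN : (N : ℝ) = 2 ^ L) (hq : (q : ℝ) = 2 ^ D)
    (h1 : (q : ℝ) ≤ 2 * L) (h2 : D - L + ((q : ℝ) - 1) / 2 ≤ -19 / 2) (h3 : L ≤ q)
    (h4 : 9 * D + 30 ≤ L) (h0 : 0 ≤ D) (hs3 : 3 ≤ s) (hsq : s ≤ q) :
    3 * (N : ℝ) ^ 2 * ((q.choose s : ℝ) * ((q : ℝ) ^ s * (5 ^ s * 2 ^ (s.choose 2)))) ≤
      1 / (2 * q) * (N : ℝ) ^ s := by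
  have h20 : (0 : ℝ) ≤ 2 := by norm_num
  have h2p : (0 : ℝ) < 2 := by norm_num
  have h21 : (1 : ℝ) ≤ 2 := by norm_num
  -- the binomial coefficient
  obtain ⟨lc, hlc, hE⟩ : ∃ lc : ℝ, (q.choose s : ℝ) ≤ 2 ^ lc ∧
      8 / 5 + 2 * L + (lc + (s * D + (7 / 3 * s + s * ((s : ℝ) - 1) / 2))) ≤ -1 - D + s * L := by
    by_cases hs5 : 5 ≤ s
    · refine ⟨2 * L, ?_, ?_⟩
      · calc (q.choose s : ℝ) ≤ ((2 ^ q : ℕ) : ℝ) := by exact_mod_cast Nat.choose_le_two_pow q s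
          _ = (2 : ℝ) ^ (q : ℝ) := by push_cast; rw [Real.rpow_natCast]
          _ ≤ 2 ^ (2 * L) := Real.rpow_le_rpow_of_exponent_le h21 h1
      · have hs5' : (5 : ℝ) ≤ s := by exact_mod_cast hs5
        have hsq' : (s : ℝ) ≤ q := by exact_mod_cast hsq
        set x : ℝ := (s : ℝ) with hx
        set y : ℝ := (q : ℝ) with hy
        have hy5 : (5 : ℝ) ≤ y := hs5'.trans hsq'
        have hconv : x ^ 2 ≤ (5 + y) * x - 5 * y := by nlinarith
        have hg5 : 13 / 5 + 4 * L + D + 5 * (D - L + 11 / 6 + (5 + y) / 2) - 5 * y / 2 ≤ 0 := by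
          linarith
        have hgq : 13 / 5 + 4 * L + D + y * (D - L + 11 / 6 + (5 + y) / 2) - 5 * y / 2 ≤ 0 := by
          have : y * (D - L + (y - 1) / 2) ≤ y * (-19 / 2) :=
            mul_le_mul_of_nonneg_left h2 (by linarith)
          nlinarith
        have hgs : 13 / 5 + 4 * L + D + x * (D - L + 11 / 6 + (5 + y) / 2) - 5 * y / 2 ≤ 0 := by
          rcases le_total 0 (D - L + 11 / 6 + (5 + y) / 2) with hB | hB
          · have := mul_le_mul_of_nonneg_right hsq' hB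
            linarith
          · have := mul_le_mul_of_nonpos_right hs5' hB
            linarith
        nlinarith
    · refine ⟨s * D, ?_, ?_⟩
      · calc (q.choose s : ℝ) ≤ ((q ^ s : ℕ) : ℝ) := by exact_mod_cast Nat.choose_le_pow q s
          _ = (q : ℝ) ^ s := by push_cast; rfl
          _ = (2 : ℝ) ^ (s * D) := by
            rw [hq, mul_comm, Real.rpow_mul_natCast h20]
      · have hcase : s = 3 ∨ s = 4 := by omega
        rcases hcase with rfl | rfl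
        · push_cast; linarith
        · push_cast; linarith
  have e5 : (5 : ℝ) ^ s ≤ 2 ^ ((7 : ℝ) / 3 * s) := by
    rw [Real.rpow_mul_natCast h20]
    exact pow_le_pow_left₀ (by norm_num) five_le s
  have e2 : (2 : ℝ) ^ (s.choose 2) = 2 ^ (s * ((s : ℝ) - 1) / 2) := by
    rw [← Nat.cast_choose_two, Real.rpow_natCast]
  have eq' : (q : ℝ) ^ s = 2 ^ (s * D) := by
    rw [hq, mul_comm, Real.rpow_mul_natCast h20]
  have eN2 : (N : ℝ) ^ 2 = 2 ^ (2 * L) := by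
    rw [hN, mul_comm, ← Real.rpow_natCast, ← Real.rpow_mul h20]; norm_num
  have eNs : (N : ℝ) ^ s = 2 ^ (s * L) := by
    rw [hN, mul_comm, Real.rpow_mul_natCast h20]
  have eR : 1 / (2 * (q : ℝ)) * (N : ℝ) ^ s = 2 ^ (-1 - D + s * L) := by
    rw [eNs, hq, Real.rpow_add h2p, Real.rpow_sub h2p, Real.rpow_neg h20, Real.rpow_one]
    congr 1
    rw [one_div, mul_inv, div_eq_mul_inv]
  rw [eR]
  have p2 : ∀ t : ℝ, (0 : ℝ) < 2 ^ t := fun t => Real.rpow_pos_of_pos h2p t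
  calc 3 * (N : ℝ) ^ 2 * ((q.choose s : ℝ) * ((q : ℝ) ^ s * (5 ^ s * 2 ^ (s.choose 2))))
      ≤ 2 ^ ((8 : ℝ) / 5) * 2 ^ (2 * L) * (2 ^ lc * (2 ^ (s * D) *
          (2 ^ ((7 : ℝ) / 3 * s) * 2 ^ (s * ((s : ℝ) - 1) / 2)))) := by
        rw [eN2, eq', e2]
        gcongr
        exact three_le
    _ = 2 ^ (8 / 5 + 2 * L + (lc + (s * D + (7 / 3 * s + s * ((s : ℝ) - 1) / 2)))) := by
        rw [← Real.rpow_add h2p, ← Real.rpow_add h2p, ← Real.rpow_add h2p, ← Real.rpow_add h2p,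
          ← Real.rpow_add h2p]
    _ ≤ 2 ^ (-1 - D + s * L) := Real.rpow_le_rpow_of_exponent_le h21 hE

/-- the second moment is small -/
lemma sum_small {N q : ℕ} {L D : ℝ} (hN : (N : ℝ) = 2 ^ L) (hq : (q : ℝ) = 2 ^ D)
    (h1 : (q : ℝ) ≤ 2 * L) (h2 : D - L + ((q : ℝ) - 1) / 2 ≤ -19 / 2) (h3 : L ≤ q)
    (h4 : 9 * D + 30 ≤ L) (h0 : 0 ≤ D) (hqN : q ≤ N) :
    3 * (N : ℝ) ^ 2 * ∑ s ∈ Icc 3 q, (q.choose s : ℝ) * ((N - q).choose (q - s) : ℝ) *
        (5 ^ s * 2 ^ (s.choose 2)) < (N.choose q : ℝ) := by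
  have hqpos : (0 : ℝ) < q := by rw [hq]; exact Real.rpow_pos_of_pos (by norm_num) _
  have hNpos : (0 : ℝ) < N := by rw [hN]; exact Real.rpow_pos_of_pos (by norm_num) _
  have hC : (0 : ℝ) < (N.choose q : ℝ) := by exact_mod_cast Nat.choose_pos hqN
  rw [Finset.mul_sum]
  have hterm : ∀ s ∈ Icc 3 q, 3 * (N : ℝ) ^ 2 * ((q.choose s : ℝ) *
      ((N - q).choose (q - s) : ℝ) * (5 ^ s * 2 ^ (s.choose 2)))
      ≤ (N.choose q : ℝ) * (1 / (2 * q)) := by
    intro s hs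
    rw [Finset.mem_Icc] at hs
    have hNs : (0 : ℝ) < (N : ℝ) ^ s := pow_pos hNpos s
    have hr := choose_ratio N q s hs.2 hqN
    have ht := term_small hN hq h1 h2 h3 h4 h0 hs.1 hs.2
    have hnn : (0 : ℝ) ≤ 3 * (N : ℝ) ^ 2 * ((q.choose s : ℝ) * (5 ^ s * 2 ^ (s.choose 2))) := by
      positivity
    have hkey : (3 * (N : ℝ) ^ 2 * ((q.choose s : ℝ) *
      ((N - q).choose (q - s) : ℝ) * (5 ^ s * 2 ^ (s.choose 2)))) * (N : ℝ) ^ s
      ≤ ((N.choose q : ℝ) * (1 / (2 * q))) * (N : ℝ) ^ s := by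
      calc (3 * (N : ℝ) ^ 2 * ((q.choose s : ℝ) *
            ((N - q).choose (q - s) : ℝ) * (5 ^ s * 2 ^ (s.choose 2)))) * (N : ℝ) ^ s
          = (3 * (N : ℝ) ^ 2 * ((q.choose s : ℝ) * (5 ^ s * 2 ^ (s.choose 2)))) *
            (((N - q).choose (q - s) : ℝ) * (N : ℝ) ^ s) := by ring
        _ ≤ (3 * (N : ℝ) ^ 2 * ((q.choose s : ℝ) * (5 ^ s * 2 ^ (s.choose 2)))) *
            ((N.choose q : ℝ) * (q : ℝ) ^ s) := mul_le_mul_of_nonneg_left hr hnn
        _ = (N.choose q : ℝ) * (3 * (N : ℝ) ^ 2 * ((q.choose s : ℝ) *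
            ((q : ℝ) ^ s * (5 ^ s * 2 ^ (s.choose 2))))) := by ring
        _ ≤ (N.choose q : ℝ) * (1 / (2 * q) * (N : ℝ) ^ s) :=
            mul_le_mul_of_nonneg_left ht hC.le
        _ = ((N.choose q : ℝ) * (1 / (2 * q))) * (N : ℝ) ^ s := by ring
    exact le_of_mul_le_mul_right hkey hNs
  calc ∑ s ∈ Icc 3 q, 3 * (N : ℝ) ^ 2 * ((q.choose s : ℝ) * ((N - q).choose (q - s) : ℝ) *
        (5 ^ s * 2 ^ (s.choose 2)))
      ≤ ∑ s ∈ Icc 3 q, (N.choose q : ℝ) * (1 / (2 * q)) := Finset.sum_le_sum hterm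
    _ = ((Icc 3 q).card : ℝ) * ((N.choose q : ℝ) * (1 / (2 * q))) := by
        rw [Finset.sum_const, nsmul_eq_mul]
    _ ≤ (q : ℝ) * ((N.choose q : ℝ) * (1 / (2 * q))) := by
        apply mul_le_mul_of_nonneg_right _ (by positivity)
        have : (Icc 3 q).card ≤ q := by rw [Nat.card_Icc]; omega
        exact_mod_cast this
    _ = (N.choose q : ℝ) / 2 := by
        field_simp
    _ < (N.choose q : ℝ) := by linarith

end Pool.Agent.Maker22
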