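import Mathlib

/-!
The (2:2) game on a finite board: from positions to strategies.
-/

set_option autoImplicit false
set_option linter.unusedSectionVars false
set_option linter.unusedVariables false

namespace Pool.Agent.Maker22


open Finset

variable {β : Type*} [DecidableEq β]

/-- points of the board `E` not claimed in the play `h` (a list of moves) -/
def free (E : Finset β) (h : List (Finset β)) : Finset β := E.filter (fun e => ∀ m ∈ h, e ∉ m)

/-- `m` is a legal move after the play `h` -/
def IsMove (E : Finset β) (h : List (Finset β)) (m : Finset β) : Prop :=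
  m ⊆ free E h ∧ (m.card = 2 ∨ (m.card = 1 ∧ (free E h).card = 1))

/-- all moves of the play are legal -/
def Legal (E : Finset β) (h : List (Finset β)) : Prop :=
  ∀ (i : ℕ) (hi : i < h.length), IsMove E (h.take i) (h[i]'hi)

/-- the moves number `0, 2, 4, ...` are made according to `σ` -/
def Follows (σ : List (Finset β) → Finset β) (h : List (Finset β)) : Prop :=
  ∀ (i : ℕ) (hi : i < h.length), i % 2 = 0 → h[i]'hi = σ (h.take i)

/-- the points of the board claimed in the moves number `p, p + 2, ...` -/
def own (E : Finset β) (p : ℕ) (h : List (Finset β)) : Finset β :=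
  E.filter (fun e => ∃ (i : ℕ) (hi : i < h.length), i % 2 = p ∧ e ∈ h[i]'hi)

theorem free_append (E : Finset β) (h : List (Finset β)) (m : Finset β) :
    free E (h ++ [m]) = free E h \ m := by
  ext e
  simp only [free, mem_filter, mem_sdiff, List.mem_append, List.mem_singleton]
  constructor
  · rintro ⟨h1, h2⟩
    exact ⟨⟨h1, fun m' hm' => h2 m' (Or.inl hm')⟩, h2 m (Or.inr rfl)⟩
  · rintro ⟨⟨h1, h2⟩, h3⟩
    refine ⟨h1, ?_⟩
    rintro m' (hm' | rfl)
    · exact h2 m' hm'
    · exact h3

theorem getElem_append_lt' (h : List (Finset β)) (m : Finset β) (i : ℕ) (hi : i < h.length)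
    (hi' : i < (h ++ [m]).length) : (h ++ [m])[i]'hi' = h[i]'hi :=
  List.getElem_append_left hi

theorem take_append' (h : List (Finset β)) (m : Finset β) (i : ℕ) (hi : i ≤ h.length) :
    (h ++ [m]).take i = h.take i := List.take_append_of_le_length hi

theorem Legal_append (E : Finset β) (h : List (Finset β)) (m : Finset β)
    (H : Legal E (h ++ [m])) : Legal E h ∧ IsMove E h m := by
  constructor
  · intro i hi
    have hi' : i < (h ++ [m]).length := by simp; omega
    have := H i hi'
    rw [getElem_append_lt' h m i hi hi', take_append' h m i hi.le] at this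
    exact this
  · have hi' : h.length < (h ++ [m]).length := by simp
    have := H h.length hi'
    rw [take_append' h m _ le_rfl, List.take_length] at this
    have e : (h ++ [m])[h.length]'hi' = m := by simp
    rw [e] at this
    exact this

theorem Follows_append (σ : List (Finset β) → Finset β) (h : List (Finset β)) (m : Finset β)
    (H : Follows σ (h ++ [m])) : Follows σ h ∧ (h.length % 2 = 0 → m = σ h) := by
  constructor
  · intro i hi hi2
    have hi' : i < (h ++ [m]).length := by simp; omega
    have := H i hi' hi2
    rw [getElem_append_lt' h m i hi hi', take_append' h m i hi.le] at this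
    exact this
  · intro h2
    have hi' : h.length < (h ++ [m]).length := by simp
    have := H h.length hi' h2
    rw [take_append' h m _ le_rfl, List.take_length] at this
    have e : (h ++ [m])[h.length]'hi' = m := by simp
    rw [e] at this
    exact this

theorem own_subset (E : Finset β) (p : ℕ) (h : List (Finset β)) : own E p h ⊆ E :=
  filter_subset _ _

theorem own_append_same (E : Finset β) (p : ℕ) (h : List (Finset β)) (m : Finset β)
    (hp : h.length % 2 = p) (hm : m ⊆ E) : own E p (h ++ [m]) = own E p h ∪ m := by
  ext e
  simp only [own, mem_filter, mem_union]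
  constructor
  · rintro ⟨h1, i, hi, hip, hie⟩
    by_cases hlt : i < h.length
    · rw [getElem_append_lt' h m i hlt hi] at hie
      exact Or.inl ⟨h1, i, hlt, hip, hie⟩
    · right
      have : i = h.length := by simp at hi; omega
      subst this
      have e : (h ++ [m])[h.length]'hi = m := by simp
      rw [e] at hie
      exact hie
  · rintro (⟨h1, i, hi, hip, hie⟩ | h1)
    · have hi' : i < (h ++ [m]).length := by simp; omega
      refine ⟨h1, i, hi', hip, ?_⟩
      rw [getElem_append_lt' h m i hi hi']
      exact hie
    · have hi' : h.length < (h ++ [m]).length := by simp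
      refine ⟨hm h1, h.length, hi', hp, ?_⟩
      have e : (h ++ [m])[h.length]'hi' = m := by simp
      rw [e]
      exact h1

theorem own_append_other (E : Finset β) (p : ℕ) (h : List (Finset β)) (m : Finset β)
    (hp : h.length % 2 ≠ p) : own E p (h ++ [m]) = own E p h := by
  ext e
  simp only [own, mem_filter]
  constructor
  · rintro ⟨h1, i, hi, hip, hie⟩
    by_cases hlt : i < h.length
    · rw [getElem_append_lt' h m i hlt hi] at hie
      exact ⟨h1, i, hlt, hip, hie⟩
    · have : i = h.length := by simp at hi; omega
      subst this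
      exact absurd hip hp
  · rintro ⟨h1, i, hi, hip, hie⟩
    have hi' : i < (h ++ [m]).length := by simp; omega
    refine ⟨h1, i, hi', hip, ?_⟩
    rw [getElem_append_lt' h m i hi hi']
    exact hie

theorem free_eq (E : Finset β) (h : List (Finset β)) :
    free E h = E \ (own E 0 h ∪ own E 1 h) := by
  ext e
  simp only [free, own, mem_filter, mem_sdiff, mem_union, not_or, not_and, not_exists]
  constructor
  · rintro ⟨h1, h2⟩
    exact ⟨h1, fun _ i hi _ hie => h2 _ (List.getElem_mem hi) hie,
      fun _ i hi _ hie => h2 _ (List.getElem_mem hi) hie⟩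
  · rintro ⟨h1, h2, h3⟩
    refine ⟨h1, fun m hm hem => ?_⟩
    obtain ⟨i, hi, rfl⟩ := List.getElem_of_mem hm
    rcases Nat.mod_two_eq_zero_or_one i with h4 | h4
    · exact h2 h1 i hi h4 hem
    · exact h3 h1 i hi h4 hem

theorem free_subset (E : Finset β) (h : List (Finset β)) : free E h ⊆ E := filter_subset _ _

theorem own_disjoint (E : Finset β) (h : List (Finset β)) (H : Legal E h) :
    Disjoint (own E 0 h) (own E 1 h) := by
  induction h using List.reverseRecOn with
  | nil => simp [own]
  | append_singleton h m ih =>
    obtain ⟨h1, h2⟩ := Legal_append E h m H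
    have hd := ih h1
    have hm : m ⊆ free E h := h2.1
    have hmE : m ⊆ E := hm.trans (free_subset E h)
    rw [free_eq] at hm
    have hm0 : Disjoint m (own E 0 h) := by
      rw [Finset.disjoint_left]
      intro e he he'
      have := hm he
      simp only [mem_sdiff, mem_union, not_or] at this
      exact this.2.1 he'
    have hm1 : Disjoint m (own E 1 h) := by
      rw [Finset.disjoint_left]
      intro e he he'
      have := hm he
      simp only [mem_sdiff, mem_union, not_or] at this
      exact this.2.2 he'
    rcases Nat.mod_two_eq_zero_or_one h.length with h4 | h4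
    · rw [own_append_same E 0 h m h4 hmE, own_append_other E 1 h m (by omega)]
      exact Finset.disjoint_union_left.2 ⟨hd, hm1⟩
    · rw [own_append_same E 1 h m h4 hmE, own_append_other E 0 h m (by omega)]
      exact Finset.disjoint_union_right.2 ⟨hd, hm0.symm⟩

/-- strategies from an invariant of positions -/
theorem exists_strategy (E : Finset β) (Good : Finset β → Finset β → Prop)
    (W : Finset β → Prop) (h0 : Good ∅ ∅)
    (hstep : ∀ M B : Finset β, M ⊆ E → B ⊆ E → Disjoint M B → Good M B →
      3 ≤ (E \ (M ∪ B)).card → ∃ m : Finset β, m ⊆ E \ (M ∪ B) ∧ m.card = 2 ∧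
        ∀ b : Finset β, b ⊆ E \ (M ∪ B ∪ m) →
          (b.card = 2 ∨ (b.card = 1 ∧ (E \ (M ∪ B ∪ m)).card = 1)) → Good (M ∪ m) (B ∪ b))
    (hend : ∀ M B : Finset β, M ⊆ E → B ⊆ E → Disjoint M B → Good M B →
      (E \ (M ∪ B)).card ≤ 2 → W (E \ B)) :
    ∃ σ : List (Finset β) → Finset β,
      (∀ h : List (Finset β), Legal E h → Follows σ h → h.length % 2 = 0 →
        (free E h).Nonempty → IsMove E h (σ h)) ∧
      (∀ h : List (Finset β), Legal E h → Follows σ h → free E h = ∅ → W (own E 0 h)) := by
  classical
  let Q : List (Finset β) → Finset β → Prop := fun h m => m ⊆ free E h ∧ m.card = 2 ∧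
    ∀ b : Finset β, b ⊆ free E h \ m → (b.card = 2 ∨ (b.card = 1 ∧ (free E h \ m).card = 1)) →
      Good (own E 0 h ∪ m) (own E 1 h ∪ b)
  let σ : List (Finset β) → Finset β := fun h =>
    if H : 3 ≤ (free E h).card ∧ ∃ m, Q h m then H.2.choose else free E h
  have hσ1 : ∀ h, 3 ≤ (free E h).card → (∃ m, Q h m) → Q h (σ h) := by
    intro h h1 h2
    have H : 3 ≤ (free E h).card ∧ ∃ m, Q h m := ⟨h1, h2⟩
    have : σ h = H.2.choose := dif_pos H
    rw [this]
    exact H.2.choose_spec
  have hσ2 : ∀ h, (free E h).card ≤ 2 → σ h = free E h := by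
    intro h h1
    exact dif_neg (fun H => by have := H.1; omega)
  have hQ : ∀ h, Legal E h → Good (own E 0 h) (own E 1 h) → 3 ≤ (free E h).card → ∃ m, Q h m := by
    intro h hL hG h3
    obtain ⟨m, hm1, hm2, hm3⟩ := hstep (own E 0 h) (own E 1 h) (own_subset E 0 h) (own_subset E 1 h)
      (own_disjoint E h hL) hG (by rw [← free_eq]; exact h3)
    have e : E \ (own E 0 h ∪ own E 1 h ∪ m) = free E h \ m := by
      rw [free_eq]
      ext x
      simp only [mem_sdiff, mem_union, not_or]
      tauto
    rw [e] at hm3
    rw [← free_eq] at hm1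
    exact ⟨m, hm1, hm2, hm3⟩
  have hfin : ∀ h, Legal E h → Good (own E 0 h) (own E 1 h) → (free E h).card ≤ 2 →
      W (own E 0 h ∪ free E h) := by
    intro h hL hG h3
    have hd := own_disjoint E h hL
    have := hend (own E 0 h) (own E 1 h) (own_subset E 0 h) (own_subset E 1 h) hd hG
      (by rw [← free_eq]; exact h3)
    have e : E \ own E 1 h = own E 0 h ∪ free E h := by
      rw [free_eq]
      ext x
      simp only [mem_sdiff, mem_union, not_or]
      constructor
      · rintro ⟨h1, h2⟩
        by_cases h4 : x ∈ own E 0 h
        · exact Or.inl h4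
        · exact Or.inr ⟨h1, h4, h2⟩
      · rintro (h1 | h1)
        · exact ⟨own_subset E 0 h h1, Finset.disjoint_left.1 hd h1⟩
        · exact ⟨h1.1, h1.2.2⟩
    rw [e] at this
    exact this
  have hinv : ∀ h : List (Finset β), Legal E h → Follows σ h →
      (h.length % 2 = 0 → Good (own E 0 h) (own E 1 h)) ∧
      (h.length % 2 = 1 → (∀ b : Finset β, b ⊆ free E h →
        (b.card = 2 ∨ (b.card = 1 ∧ (free E h).card = 1)) → Good (own E 0 h) (own E 1 h ∪ b)) ∧
        (free E h = ∅ → W (own E 0 h))) := by
    intro h
    induction h using List.reverseRecOn with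
    | nil =>
      intro _ _
      refine ⟨fun _ => ?_, fun h1 => by simp at h1⟩
      have e0 : own E 0 ([] : List (Finset β)) = ∅ := by simp [own]
      have e1 : own E 1 ([] : List (Finset β)) = ∅ := by simp [own]
      rw [e0, e1]
      exact h0
    | append_singleton h m ih =>
      intro hL hF
      obtain ⟨hL', hM⟩ := Legal_append E h m hL
      obtain ⟨hF', hmσ⟩ := Follows_append σ h m hF
      obtain ⟨ih0, ih1⟩ := ih hL' hF'
      have hmE : m ⊆ E := hM.1.trans (free_subset E h)
      have hlen : (h ++ [m]).length = h.length + 1 := by simp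
      rcases Nat.mod_two_eq_zero_or_one h.length with h4 | h4
      · refine ⟨fun h5 => by rw [hlen] at h5; omega, fun _ => ?_⟩
        have hG := ih0 h4
        have hms := hmσ h4
        rw [own_append_same E 0 h m h4 hmE, own_append_other E 1 h m (by omega), free_append]
        rcases Nat.lt_or_ge 2 (free E h).card with h6 | h6
        · have hq := hσ1 h h6 (hQ h hL' hG h6)
          rw [← hms] at hq
          refine ⟨hq.2.2, fun h7 => ?_⟩
          exfalso
          have h8 : (free E h \ m).card = (free E h).card - m.card := by
            rw [Finset.card_sdiff_of_subset hM.1]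
          rw [h7, hq.2.1] at h8
          simp at h8
          omega
        · have hq := hσ2 h h6
          rw [hq] at hms
          subst hms
          refine ⟨?_, fun _ => hfin h hL' hG h6⟩
          intro b hb hbc
          rw [Finset.sdiff_self, Finset.subset_empty] at hb
          subst hb
          simp at hbc
      · refine ⟨fun _ => ?_, fun h5 => by rw [hlen] at h5; omega⟩
        rw [own_append_other E 0 h m (by omega), own_append_same E 1 h m h4 hmE]
        exact (ih1 h4).1 m hM.1 hM.2
  refine ⟨σ, ?_, ?_⟩
  · intro h hL hF h2 hne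
    have hG := (hinv h hL hF).1 h2
    rcases Nat.lt_or_ge 2 (free E h).card with h6 | h6
    · have hq := hσ1 h h6 (hQ h hL hG h6)
      exact ⟨hq.1, Or.inl hq.2.1⟩
    · rw [hσ2 h h6]
      refine ⟨Finset.Subset.refl _, ?_⟩
      have := Finset.card_pos.2 hne
      rcases Nat.lt_or_ge (free E h).card 2 with h7 | h7
      · exact Or.inr ⟨by omega, by omega⟩
      · exact Or.inl (by omega)
  · intro h hL hF hfree
    rcases Nat.mod_two_eq_zero_or_one h.length with h4 | h4
    · have hG := (hinv h hL hF).1 h4
      have := hfin h hL hG (by rw [hfree]; simp)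
      rw [hfree, Finset.union_empty] at this
      exact this
    · exact ((hinv h hL hF).2 h4).2 hfree

end Pool.Agent.Maker22
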