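import Mathlib

/-!
The clique size as a function of the number of vertices.
-/

set_option autoImplicit false
set_option linter.unusedSectionVars false
set_option linter.unusedVariables false

namespace Pool.Agent.Maker22


lemma aux_logb_small : ∀ᶠ x : ℝ in Filter.atTop, Real.logb 2 x ≤ x / 100 := by
  have hl2 : 0 < Real.log 2 := Real.log_pos (by norm_num)
  have h := Real.isLittleO_log_id_atTop.bound (show (0 : ℝ) < Real.log 2 / 100 by positivity)
  filter_upwards [h, Filter.eventually_ge_atTop (1 : ℝ)] with x hx h1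
  have h2 : Real.log x ≤ Real.log 2 / 100 * x := by
    have h3 := le_trans (le_abs_self (Real.log x)) hx
    rwa [id, Real.norm_eq_abs, abs_of_nonneg (by linarith : (0:ℝ) ≤ x)] at h3
  unfold Real.logb
  rw [div_le_iff₀ hl2]
  linarith

/-- the parameters for large `N` -/
lemma params_eventually : ∃ N₀ : ℕ, ∀ N : ℕ, N₀ ≤ N → ∃ (q : ℕ) (L D : ℝ),
    (q : ℤ) = ⌊2 * Real.logb 2 N - 2 * Real.logb 2 (Real.logb 2 N) - 20⌋ ∧
    (N : ℝ) = 2 ^ L ∧ (q : ℝ) = 2 ^ D ∧ (q : ℝ) ≤ 2 * L ∧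
    D - L + ((q : ℝ) - 1) / 2 ≤ -19 / 2 ∧ L ≤ q ∧ 9 * D + 30 ≤ L ∧ 0 ≤ D ∧ q ≤ N ∧ 3 ≤ q ∧
    2 ≤ N := by
  have hcast := tendsto_natCast_atTop_atTop (R := ℝ)
  have hL : Filter.Tendsto (fun N : ℕ => Real.logb 2 (N : ℝ)) Filter.atTop Filter.atTop :=
    (Real.tendsto_logb_atTop (by norm_num)).comp hcast
  have e1 := hcast.eventually aux_logb_small
  have e2 := hL.eventually aux_logb_small
  have e3 := hL.eventually (Filter.eventually_ge_atTop (10000 : ℝ))
  have e := (e1.and (e2.and e3))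
  rw [Filter.eventually_atTop] at e
  obtain ⟨N₀, hN₀⟩ := e
  refine ⟨N₀, fun N hN => ?_⟩
  obtain ⟨h1, h2, h3⟩ := hN₀ N hN
  set L : ℝ := Real.logb 2 (N : ℝ) with hLdef
  set l : ℝ := Real.logb 2 L with hldef
  have hl0 : 0 ≤ l := Real.logb_nonneg (by norm_num) (by linarith)
  set x : ℝ := 2 * L - 2 * l - 20 with hx
  have hxpos : L + 1 ≤ x := by rw [hx]; linarith
  have hfl0 : 0 ≤ ⌊x⌋ := Int.floor_nonneg.mpr (by linarith)
  have hq : ((⌊x⌋.toNat : ℕ) : ℤ) = ⌊x⌋ := Int.toNat_of_nonneg hfl0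
  set q : ℕ := ⌊x⌋.toNat with hqdef
  have hqR : (q : ℝ) = (⌊x⌋ : ℝ) := by exact_mod_cast hq
  have hqle : (q : ℝ) ≤ x := by rw [hqR]; exact Int.floor_le x
  have hqgt : x - 1 < (q : ℝ) := by rw [hqR]; exact Int.sub_one_lt_floor x
  have hLq : L ≤ q := by linarith
  have hqpos : (0 : ℝ) < q := by linarith
  have hNpos : (0 : ℝ) < N := by linarith
  have hq2L : (q : ℝ) ≤ 2 * L := by linarith
  have hD : Real.logb 2 (q : ℝ) ≤ 1 + l := by
    have h4 : Real.logb 2 (q : ℝ) ≤ Real.logb 2 (2 * L) :=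
      Real.logb_le_logb_of_le (by norm_num) hqpos hq2L
    have h5 : Real.logb 2 (2 * L) = 1 + l := by
      rw [Real.logb_mul (by norm_num) (by linarith), Real.logb_self_eq_one (by norm_num)]
    linarith
  refine ⟨q, L, Real.logb 2 (q : ℝ), hq, ?_, ?_, hq2L, ?_, hLq, ?_, ?_, ?_, ?_, ?_⟩
  · exact (Real.rpow_logb (by norm_num) (by norm_num) hNpos).symm
  · exact (Real.rpow_logb (by norm_num) (by norm_num) hqpos).symm
  · rw [hx] at hqle
    linarith
  · linarith
  · exact Real.logb_nonneg (by norm_num) (by linarith)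
  · have : (q : ℝ) ≤ N := by linarith
    exact_mod_cast this
  · have : (3 : ℝ) ≤ q := by linarith
    exact_mod_cast this
  · have : (2 : ℝ) ≤ N := by linarith
    exact_mod_cast this

end Pool.Agent.Maker22
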