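import Pool.Agent.Maker22.Defs

/-!
One round of the (2:2) Maker game.
-/

set_option autoImplicit false
set_option linter.unusedSectionVars false
set_option linter.unusedVariables false

namespace Pool.Agent.Maker22

open Finset

variable {β ι : Type*} [DecidableEq β] [DecidableEq ι]

lemma w_pos (A : ι → Finset β) (M : Finset β) (i : ι) : 0 < w A M i := by
  unfold w; positivity


lemma w_insert (A : ι → Finset β) {M : Finset β} {x : β} (hx : x ∉ M) (i : ι) :
    w A (insert x M) i = if x ∈ A i then 2 * w A M i else w A M i := by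
  have e : A i \ insert x M = (A i \ M).erase x := by
    ext z; simp only [mem_sdiff, mem_insert, mem_erase]; tauto
  unfold w
  rw [e]
  split_ifs with h
  · have hm : x ∈ A i \ M := mem_sdiff.2 ⟨h, hx⟩
    have hc := card_erase_add_one hm
    rw [← hc, pow_succ]; ring
  · have hm : x ∉ A i \ M := fun hh => h (mem_sdiff.1 hh).1
    rw [erase_eq_of_notMem hm]

lemma mm_insert (A : ι → Finset β) (c : Finset β → ℝ) {M : Finset β} {x : β} (hx : x ∉ M)
    (i j : ι) : mm A c (insert x M) i j =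
      mm A c M i j + uu A c M x i j - 2 * ll A c M x i j := by
  have e : (A i ∩ A j) \ insert x M = ((A i ∩ A j) \ M).erase x := by
    ext z; simp only [mem_sdiff, mem_insert, mem_erase, mem_inter]; tauto
  unfold mm uu ll
  rw [w_insert A hx i, w_insert A hx j, e]
  by_cases hi : x ∈ A i <;> by_cases hj : x ∈ A j
  · have h1 : x ∈ A i ∪ A j := mem_union_left _ hi
    have h2 : x ∈ A i ∩ A j := mem_inter.2 ⟨hi, hj⟩
    rw [if_pos hi, if_pos hj, if_pos h1, if_pos h2]
    unfold mm
    ring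
  · have h1 : x ∈ A i ∪ A j := mem_union_left _ hi
    have h2 : x ∉ A i ∩ A j := fun hh => hj (mem_inter.1 hh).2
    have h3 : x ∉ (A i ∩ A j) \ M := fun hh => h2 (mem_sdiff.1 hh).1
    rw [if_pos hi, if_neg hj, if_pos h1, if_neg h2, erase_eq_of_notMem h3]
    unfold mm
    ring
  · have h1 : x ∈ A i ∪ A j := mem_union_right _ hj
    have h2 : x ∉ A i ∩ A j := fun hh => hi (mem_inter.1 hh).1
    have h3 : x ∉ (A i ∩ A j) \ M := fun hh => h2 (mem_sdiff.1 hh).1
    rw [if_neg hi, if_pos hj, if_pos h1, if_neg h2, erase_eq_of_notMem h3]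
    unfold mm
    ring
  · have h1 : x ∉ A i ∪ A j := fun hh => (mem_union.1 hh).elim hi hj
    have h2 : x ∉ A i ∩ A j := fun hh => hi (mem_inter.1 hh).1
    have h3 : x ∉ (A i ∩ A j) \ M := fun hh => h2 (mem_sdiff.1 hh).1
    rw [if_neg hi, if_neg hj, if_neg h1, if_neg h2, erase_eq_of_notMem h3]
    ring

lemma kk_split (c : Finset β → ℝ) {I : Finset β} {x : β} (hx : x ∈ I) :
    kk c I - 2 * kk c (I.erase x) =
      ∑ E ∈ (I.erase x).powerset, (c (insert x E) - c E) := by
  have e : kk c I = ∑ E ∈ (I.erase x).powerset, c E +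
      ∑ E ∈ (I.erase x).powerset, c (insert x E) := by
    unfold kk
    conv_lhs => rw [← insert_erase hx]
    exact sum_powerset_insert (notMem_erase x I) c
  rw [e, sum_sub_distrib]
  unfold kk
  ring

lemma ll_nonneg {A : ι → Finset β} {c : Finset β → ℝ} {l : ℝ} (h : Coef A c l) {M : Finset β}
    {x : β} (hx : x ∉ M) (i j : ι) : 0 ≤ ll A c M x i j := by
  unfold ll
  split_ifs with hh
  · have hm : x ∈ (A i ∩ A j) \ M := mem_sdiff.2 ⟨hh, hx⟩
    rw [kk_split c hm]
    refine mul_nonneg (mul_nonneg (w_pos A M i).le (w_pos A M j).le) ?_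
    exact sum_nonneg fun E _ => sub_nonneg.2 (h.mono x E)
  · exact le_rfl

lemma ll_le_uu {A : ι → Finset β} {c : Finset β → ℝ} {l : ℝ} (h : Coef A c l) (M : Finset β)
    (x : β) (i j : ι) : ll A c M x i j ≤ uu A c M x i j := by
  have hk : ∀ I : Finset β, 0 ≤ kk c I := fun I => sum_nonneg fun E _ => h.nonneg E
  have hw : 0 ≤ w A M i * w A M j := mul_nonneg (w_pos A M i).le (w_pos A M j).le
  unfold ll uu mm
  by_cases h2 : x ∈ A i ∩ A j
  · have h1 : x ∈ A i ∪ A j := mem_union_left _ (mem_inter.1 h2).1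
    rw [if_pos h2, if_pos h1]
    refine mul_le_mul_of_nonneg_left ?_ hw
    have := hk (((A i ∩ A j) \ M).erase x)
    linarith
  · rw [if_neg h2]
    split_ifs
    · exact mul_nonneg hw (hk _)
    · exact le_rfl

lemma LL_insert (A : ι → Finset β) (c : Finset β → ℝ) (F : Finset ι) {M : Finset β} {x : β}
    (hx : x ∉ M) : LL A c F (insert x M) = LL A c F M + gg A c F M x + bb A c F M x := by
  have hT : TT A F (insert x M) = TT A F M + Tx A F M x := by
    unfold TT Tx
    rw [← sum_add_distrib]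
    refine sum_congr rfl fun i _ => ?_
    rw [w_insert A hx i]
    split_ifs <;> ring
  have hP : PP A c F (insert x M) = PP A c F M + Px A c F M x - 2 * bb A c F M x := by
    unfold PP Px bb
    rw [mul_sum, ← sum_add_distrib, ← sum_sub_distrib]
    refine sum_congr rfl fun i _ => ?_
    rw [mul_sum, ← sum_add_distrib, ← sum_sub_distrib]
    exact sum_congr rfl fun j _ => mm_insert A c hx i j
  unfold LL gg
  rw [hT, hP]
  ring


lemma LL_filter (A : ι → Finset β) (c : Finset β → ℝ) (F : Finset ι) (M : Finset β) (y z : β) :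
    LL A c (F.filter (fun i => y ∉ A i ∧ z ∉ A i)) M =
      LL A c F M - Tx A F M y - Tx A F M z + Px A c F M y + Px A c F M z
        + (∑ i ∈ F, if y ∈ A i ∧ z ∈ A i then w A M i else 0)
        - ∑ i ∈ F, ∑ j ∈ F, if y ∈ A i ∪ A j ∧ z ∈ A i ∪ A j then mm A c M i j else 0 := by
  have h1 : ∑ i ∈ F.filter (fun i => y ∉ A i ∧ z ∉ A i), w A M i =
      ∑ i ∈ F, (w A M i - (if y ∈ A i then w A M i else 0) - (if z ∈ A i then w A M i else 0)
        + (if y ∈ A i ∧ z ∈ A i then w A M i else 0)) := by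
    rw [sum_filter]
    refine sum_congr rfl fun i _ => ?_
    by_cases hy : y ∈ A i <;> by_cases hz : z ∈ A i <;> simp [hy, hz]
  have h2 : ∑ i ∈ F.filter (fun i => y ∉ A i ∧ z ∉ A i),
      ∑ j ∈ F.filter (fun i => y ∉ A i ∧ z ∉ A i), mm A c M i j =
      ∑ i ∈ F, ∑ j ∈ F, (mm A c M i j - (if y ∈ A i ∪ A j then mm A c M i j else 0)
        - (if z ∈ A i ∪ A j then mm A c M i j else 0)
        + (if y ∈ A i ∪ A j ∧ z ∈ A i ∪ A j then mm A c M i j else 0)) := by
    rw [sum_filter]
    refine sum_congr rfl fun i _ => ?_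
    by_cases hi : y ∉ A i ∧ z ∉ A i
    · rw [if_pos hi, sum_filter]
      refine sum_congr rfl fun j _ => ?_
      obtain ⟨hyi, hzi⟩ := hi
      by_cases hy : y ∈ A j <;> by_cases hz : z ∈ A j <;> simp [hyi, hzi, hy, hz, mem_union]
    · rw [if_neg hi]
      symm
      apply sum_eq_zero
      intro j _
      by_cases hyi : y ∈ A i <;> by_cases hzi : z ∈ A i <;> by_cases hy : y ∈ A j <;>
        by_cases hz : z ∈ A j <;> simp_all [mem_union]
  unfold LL TT PP Tx Px uu
  rw [h1, h2]
  simp only [sum_add_distrib, sum_sub_distrib]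
  ring


lemma ll_eq_7470 [Fintype β] (A : ι → Finset β) (c : Finset β → ℝ) {M : Finset β} {x : β}
    (hx : x ∉ M) (i j : ι) : ll A c M x i j =
      ∑ E ∈ ((univ : Finset β) \ insert x M).powerset,
        (c (insert x E) - c E) * ((if insert x E ⊆ A i then w A M i else 0) *
          (if insert x E ⊆ A j then w A M j else 0)) := by
  unfold ll
  by_cases hxx : x ∈ A i ∩ A j
  · rw [if_pos hxx]
    have hxi : x ∈ A i := (mem_inter.1 hxx).1
    have hxj : x ∈ A j := (mem_inter.1 hxx).2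
    have hI : x ∈ (A i ∩ A j) \ M := mem_sdiff.2 ⟨hxx, hx⟩
    rw [kk_split c hI]
    have hsub : (((A i ∩ A j) \ M).erase x).powerset ⊆
        ((univ : Finset β) \ insert x M).powerset := by
      apply powerset_mono.2
      intro y hy
      simp only [mem_erase, mem_sdiff, mem_inter, mem_univ, mem_insert, true_and, not_or] at hy ⊢
      exact ⟨hy.1, hy.2.2⟩
    rw [← sum_subset hsub, mul_sum]
    · refine sum_congr rfl fun E hE => ?_
      rw [mem_powerset] at hE
      have h1 : insert x E ⊆ A i := by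
        refine insert_subset hxi fun y hy => ?_
        have := hE hy
        simp only [mem_erase, mem_sdiff, mem_inter] at this
        exact this.2.1.1
      have h2 : insert x E ⊆ A j := by
        refine insert_subset hxj fun y hy => ?_
        have := hE hy
        simp only [mem_erase, mem_sdiff, mem_inter] at this
        exact this.2.1.2
      rw [if_pos h1, if_pos h2]
      ring
    · intro E hE hE'
      by_cases h1 : insert x E ⊆ A i
      · by_cases h2 : insert x E ⊆ A j
        · exfalso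
          apply hE'
          rw [mem_powerset] at hE ⊢
          intro y hy
          have h3 := hE hy
          simp only [mem_sdiff, mem_univ, mem_insert, true_and, not_or] at h3
          simp only [mem_erase, mem_sdiff, mem_inter]
          exact ⟨h3.1, ⟨h1 (mem_insert_of_mem hy), h2 (mem_insert_of_mem hy)⟩, h3.2⟩
        · rw [if_neg h2]; ring
      · rw [if_neg h1]; ring
  · rw [if_neg hxx]
    symm
    refine sum_eq_zero fun E _ => ?_
    by_cases h1 : insert x E ⊆ A i
    · by_cases h2 : insert x E ⊆ A j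
      · exact absurd (mem_inter.2 ⟨h1 (mem_insert_self _ _), h2 (mem_insert_self _ _)⟩) hxx
      · rw [if_neg h2]; ring
    · rw [if_neg h1]; ring

lemma bb_eq [Fintype β] (A : ι → Finset β) (c : Finset β → ℝ) (F : Finset ι) {M : Finset β} {x : β}
    (hx : x ∉ M) : bb A c F M x =
      ∑ E ∈ ((univ : Finset β) \ insert x M).powerset,
        (c (insert x E) - c E) * TE A F M (insert x E) ^ 2 := by
  unfold bb TE
  simp_rw [ll_eq_7470 A c hx]
  have h1 : ∀ i ∈ F, ∑ j ∈ F, ∑ E ∈ ((univ : Finset β) \ insert x M).powerset,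
        (c (insert x E) - c E) * ((if insert x E ⊆ A i then w A M i else 0) *
          (if insert x E ⊆ A j then w A M j else 0)) =
      ∑ E ∈ ((univ : Finset β) \ insert x M).powerset, ∑ j ∈ F,
        (c (insert x E) - c E) * ((if insert x E ⊆ A i then w A M i else 0) *
          (if insert x E ⊆ A j then w A M j else 0)) := fun i _ => sum_comm
  rw [sum_congr rfl h1, sum_comm]
  refine sum_congr rfl fun E _ => ?_
  rw [pow_two, sum_mul_sum, mul_sum]
  refine sum_congr rfl fun i _ => ?_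
  rw [mul_sum]


lemma pair_ineq {A : ι → Finset β} {c : Finset β → ℝ} {l : ℝ} (h : Coef A c l) {M : Finset β}
    {x₁ x₂ y z : β} (h1 : x₁ ∉ M) (h2 : x₂ ∉ insert x₁ M) (hy : y ∉ insert x₁ M) (hz : z ∉ M)
    (i j : ι) :
    ll A c M z i j + ll A c (insert x₁ M) y i j
      - (if y ∈ A i ∪ A j ∧ z ∈ A i ∪ A j then mm A c M i j - ll A c M x₁ i j else 0) ≤
      - uu A c M z i j + ll A c M z i j + ll A c M x₁ i j - uu A c (insert x₁ M) y i j
        + ll A c (insert x₁ M) y i j + ll A c (insert x₁ M) x₂ i j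
        + uu A c (insert x₂ (insert x₁ M)) y i j + uu A c (insert x₂ (insert x₁ M)) z i j
        - (if y ∈ A i ∪ A j ∧ z ∈ A i ∪ A j then mm A c (insert x₂ (insert x₁ M)) i j else 0) := by
  have m1 := mm_insert A c h1 i j
  have m2 := mm_insert A c h2 i j
  have l0 := ll_nonneg h h1 i j
  have l1 := ll_nonneg h h2 i j
  have b0 := ll_le_uu h M x₁ i j
  have b1 := ll_le_uu h (insert x₁ M) x₂ i j
  have uz : uu A c M z i j = if z ∈ A i ∪ A j then mm A c M i j else 0 := rfl
  have uy : uu A c (insert x₁ M) y i j =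
    if y ∈ A i ∪ A j then mm A c (insert x₁ M) i j else 0 := rfl
  have uy2 : uu A c (insert x₂ (insert x₁ M)) y i j =
    if y ∈ A i ∪ A j then mm A c (insert x₂ (insert x₁ M)) i j else 0 := rfl
  have uz2 : uu A c (insert x₂ (insert x₁ M)) z i j =
    if z ∈ A i ∪ A j then mm A c (insert x₂ (insert x₁ M)) i j else 0 := rfl
  rw [uz, uy, uy2, uz2]
  by_cases ha : y ∈ A i ∪ A j <;> by_cases hb : z ∈ A i ∪ A j
  · rw [if_pos ha, if_pos ha, if_pos hb, if_pos hb, if_pos ⟨ha, hb⟩, if_pos ⟨ha, hb⟩]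
    linarith
  · rw [if_pos ha, if_pos ha, if_neg hb, if_neg hb, if_neg (fun h => hb h.2),
      if_neg (fun h => hb h.2)]
    linarith
  · rw [if_neg ha, if_neg ha, if_pos hb, if_pos hb, if_neg (fun h => ha h.1),
      if_neg (fun h => ha h.1)]
    linarith
  · rw [if_neg ha, if_neg ha, if_neg hb, if_neg hb, if_neg (fun h => ha h.1),
      if_neg (fun h => ha h.1)]
    linarith


lemma mm_nonneg_aux {A : ι → Finset β} {c : Finset β → ℝ} {l : ℝ} (h : Coef A c l)
    (M : Finset β) (i j : ι) : 0 ≤ mm A c M i j := by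
  unfold mm kk
  exact mul_nonneg (mul_nonneg (w_pos A M i).le (w_pos A M j).le)
    (Finset.sum_nonneg fun E _ => h.nonneg E)

lemma mm_symm_aux (A : ι → Finset β) (c : Finset β → ℝ) (M : Finset β) (i j : ι) :
    mm A c M i j = mm A c M j i := by
  unfold mm
  rw [Finset.inter_comm (A i) (A j), mul_comm (w A M i) (w A M j)]

lemma typeA {A : ι → Finset β} {c : Finset β → ℝ} {l : ℝ} (h : Coef A c l) {F : Finset ι}
    {M : Finset β}
    (hD : ∀ i ∈ F, 2 * ∑ j ∈ F, mm A c M i j - mm A c M i i ≤ w A M i) (y z : β) :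
    (∑ i ∈ F, ∑ j ∈ F, if (y ∈ A i ∧ z ∈ A i) ∨ (y ∈ A j ∧ z ∈ A j) then mm A c M i j else 0) ≤
      ∑ i ∈ F, if y ∈ A i ∧ z ∈ A i then w A M i else 0 := by
  have h1 : ∀ i ∈ F, ∀ j ∈ F,
      (if (y ∈ A i ∧ z ∈ A i) ∨ (y ∈ A j ∧ z ∈ A j) then mm A c M i j else 0) =
        ((if y ∈ A i ∧ z ∈ A i then mm A c M i j else 0) +
          (if y ∈ A j ∧ z ∈ A j then mm A c M i j else 0)) -
          (if (y ∈ A i ∧ z ∈ A i) ∧ (y ∈ A j ∧ z ∈ A j) then mm A c M i j else 0) := by
    intro i _ j _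
    by_cases hi : y ∈ A i ∧ z ∈ A i
    · by_cases hj : y ∈ A j ∧ z ∈ A j
      · rw [if_pos (Or.inl hi), if_pos hi, if_pos hj, if_pos ⟨hi, hj⟩]; ring
      · rw [if_pos (Or.inl hi), if_pos hi, if_neg hj, if_neg (fun h => hj h.2)]; ring
    · by_cases hj : y ∈ A j ∧ z ∈ A j
      · rw [if_pos (Or.inr hj), if_neg hi, if_pos hj, if_neg (fun h => hi h.1)]; ring
      · rw [if_neg (fun h => h.elim hi hj), if_neg hi, if_neg hj, if_neg (fun h => hi h.1)]; ring
  rw [Finset.sum_congr rfl fun i hi => Finset.sum_congr rfl (h1 i hi)]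
  simp only [Finset.sum_sub_distrib, Finset.sum_add_distrib]
  have h2 : (∑ i ∈ F, ∑ j ∈ F, if y ∈ A j ∧ z ∈ A j then mm A c M i j else 0) =
      ∑ i ∈ F, ∑ j ∈ F, if y ∈ A i ∧ z ∈ A i then mm A c M i j else 0 := by
    rw [Finset.sum_comm]
    refine Finset.sum_congr rfl fun i _ => Finset.sum_congr rfl fun j _ => ?_
    rw [mm_symm_aux A c M j i]
  have h3 : (∑ i ∈ F, if y ∈ A i ∧ z ∈ A i then mm A c M i i else 0) ≤
      ∑ i ∈ F, ∑ j ∈ F, if (y ∈ A i ∧ z ∈ A i) ∧ (y ∈ A j ∧ z ∈ A j) then mm A c M i j else 0 := by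
    refine Finset.sum_le_sum fun i hi => ?_
    have h4 := Finset.single_le_sum
      (f := fun j => if (y ∈ A i ∧ z ∈ A i) ∧ (y ∈ A j ∧ z ∈ A j) then mm A c M i j else 0)
      (s := F) (fun j _ => by
        split_ifs
        · exact mm_nonneg_aux h M i j
        · exact le_rfl) hi
    simpa only [and_self] using h4
  have h5 : (∑ i ∈ F, ∑ j ∈ F, if y ∈ A i ∧ z ∈ A i then mm A c M i j else 0) +
      (∑ i ∈ F, ∑ j ∈ F, if y ∈ A i ∧ z ∈ A i then mm A c M i j else 0) -
      (∑ i ∈ F, if y ∈ A i ∧ z ∈ A i then mm A c M i i else 0) ≤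
      ∑ i ∈ F, if y ∈ A i ∧ z ∈ A i then w A M i else 0 := by
    rw [← Finset.sum_add_distrib, ← Finset.sum_sub_distrib]
    refine Finset.sum_le_sum fun i hi => ?_
    by_cases hi' : y ∈ A i ∧ z ∈ A i
    · simp only [if_pos hi']
      have := hD i hi
      linarith
    · simp only [if_neg hi', Finset.sum_const_zero]
      norm_num
  rw [h2]
  linarith


lemma kk_nonneg' {A : ι → Finset β} {c : Finset β → ℝ} {l : ℝ} (h : Coef A c l) (I : Finset β) :
    0 ≤ kk c I := Finset.sum_nonneg fun E _ => h.nonneg E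

lemma tB_pair [Fintype β] {A : ι → Finset β} {c : Finset β → ℝ} {l : ℝ} (h : Coef A c l)
    {M : Finset β} {x₁ y z : β} (i j : ι) (hy' : y ∉ A i ∩ A j) (hz' : z ∉ A i ∩ A j) :
    mm A c M i j - ll A c M x₁ i j ≤
      ∑ E ∈ ((univ : Finset β) \ (insert x₁ (insert y (insert z M)))).powerset,
        2 * c E * ((if E ⊆ A i then w A M i else 0) * (if E ⊆ A j then w A M j else 0)) := by
  have h0 : mm A c M i j - ll A c M x₁ i j ≤
      2 * (w A M i * w A M j * kk c (((A i ∩ A j) \ M).erase x₁)) := by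
    have hw1 := w_pos A M i
    have hw2 := w_pos A M j
    have hk := kk_nonneg' h (((A i ∩ A j) \ M).erase x₁)
    unfold mm ll
    by_cases hx : x₁ ∈ A i ∩ A j
    · rw [if_pos hx]
      linarith
    · rw [if_neg hx]
      have he : ((A i ∩ A j) \ M).erase x₁ = (A i ∩ A j) \ M := by
        apply Finset.erase_eq_of_notMem
        intro hm
        exact hx (Finset.mem_sdiff.1 hm).1
      rw [he] at hk ⊢
      have : 0 ≤ w A M i * w A M j * kk c ((A i ∩ A j) \ M) := by positivity
      linarith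
  refine h0.trans (le_of_eq ?_)
  have hpow : (((A i ∩ A j) \ M).erase x₁).powerset =
      ((univ : Finset β) \ (insert x₁ (insert y (insert z M)))).powerset.filter
        (fun E => E ⊆ A i ∧ E ⊆ A j) := by
    ext E
    simp only [Finset.mem_filter, Finset.mem_powerset]
    constructor
    · intro hE
      refine ⟨?_, ?_, ?_⟩
      · intro e he
        have h1 := hE he
        rw [Finset.mem_erase, Finset.mem_sdiff] at h1
        rw [Finset.mem_sdiff]
        refine ⟨Finset.mem_univ _, ?_⟩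
        rw [Finset.mem_insert, Finset.mem_insert, Finset.mem_insert]
        rintro (h2 | h2 | h2 | h2)
        · exact h1.1 h2
        · rw [h2] at h1; exact hy' h1.2.1
        · rw [h2] at h1; exact hz' h1.2.1
        · exact h1.2.2 h2
      · intro e he
        have h1 := hE he
        rw [Finset.mem_erase, Finset.mem_sdiff, Finset.mem_inter] at h1
        exact h1.2.1.1
      · intro e he
        have h1 := hE he
        rw [Finset.mem_erase, Finset.mem_sdiff, Finset.mem_inter] at h1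
        exact h1.2.1.2
    · rintro ⟨hE1, hE2, hE3⟩ e he
      have h1 := hE1 he
      rw [Finset.mem_sdiff, Finset.mem_insert, Finset.mem_insert, Finset.mem_insert] at h1
      rw [Finset.mem_erase, Finset.mem_sdiff, Finset.mem_inter]
      exact ⟨fun h2 => h1.2 (Or.inl h2), ⟨hE2 he, hE3 he⟩,
        fun h2 => h1.2 (Or.inr (Or.inr (Or.inr h2)))⟩
  unfold kk
  rw [hpow, Finset.sum_filter, Finset.mul_sum, Finset.mul_sum]
  refine Finset.sum_congr rfl fun E _ => ?_
  by_cases h1 : E ⊆ A i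
  · by_cases h2 : E ⊆ A j
    · rw [if_pos ⟨h1, h2⟩, if_pos h1, if_pos h2]; ring
    · rw [if_neg (fun hh => h2 hh.2), if_pos h1, if_neg h2]; ring
  · rw [if_neg (fun hh => h1 hh.1), if_neg h1]; ring

lemma TE_nonneg (A : ι → Finset β) (F : Finset ι) (M E : Finset β) : 0 ≤ TE A F M E := by
  unfold TE
  refine Finset.sum_nonneg fun i _ => ?_
  split_ifs
  · exact (w_pos A M i).le
  · exact le_rfl

lemma typeB [Fintype β] {A : ι → Finset β} {c : Finset β → ℝ} {l : ℝ} (h : Coef A c l)
    (F : Finset ι) {M : Finset β} {x₁ y z : β} (h1 : x₁ ∉ M) (hy : y ∉ insert x₁ M) (hz : z ∉ M)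
    (hyz : y ≠ z) :
    (∑ i ∈ F, ∑ j ∈ F, if (y ∈ A i ∧ z ∉ A i ∧ z ∈ A j ∧ y ∉ A j) ∨
        (z ∈ A i ∧ y ∉ A i ∧ y ∈ A j ∧ z ∉ A j) then mm A c M i j - ll A c M x₁ i j else 0) ≤
      1 / 2 * (bb A c F M z + bb A c F (insert x₁ M) y) := by
  set V := (univ : Finset β) \ (insert x₁ (insert y (insert z M))) with hV
  set a : Finset β → ι → ℝ := fun E i => if y ∈ A i ∧ z ∉ A i ∧ E ⊆ A i then w A M i else 0 with ha
  set b : Finset β → ι → ℝ := fun E i => if z ∈ A i ∧ y ∉ A i ∧ E ⊆ A i then w A M i else 0 with hb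
  have ha0 : ∀ E i, 0 ≤ a E i := by
    intro E i
    simp only [ha]
    split_ifs
    · exact (w_pos A M i).le
    · exact le_rfl
  have hb0 : ∀ E i, 0 ≤ b E i := by
    intro E i
    simp only [hb]
    split_ifs
    · exact (w_pos A M i).le
    · exact le_rfl
  -- step 2
  have step2 : (∑ i ∈ F, ∑ j ∈ F, if (y ∈ A i ∧ z ∉ A i ∧ z ∈ A j ∧ y ∉ A j) ∨
        (z ∈ A i ∧ y ∉ A i ∧ y ∈ A j ∧ z ∉ A j) then mm A c M i j - ll A c M x₁ i j else 0) ≤
      ∑ E ∈ V.powerset, 4 * c E * ((∑ i ∈ F, a E i) * (∑ i ∈ F, b E i)) := by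
    have hij : ∀ i j, (if (y ∈ A i ∧ z ∉ A i ∧ z ∈ A j ∧ y ∉ A j) ∨
        (z ∈ A i ∧ y ∉ A i ∧ y ∈ A j ∧ z ∉ A j) then mm A c M i j - ll A c M x₁ i j else 0) ≤
        ∑ E ∈ V.powerset, 2 * c E * (a E i * b E j + b E i * a E j) := by
      intro i j
      split_ifs with hc
      · rcases hc with ⟨c1, c2, c3, c4⟩ | ⟨c1, c2, c3, c4⟩
        · refine (tB_pair h (y := y) (z := z) i j (fun hm => c4 (Finset.mem_inter.1 hm).2)
            (fun hm => c2 (Finset.mem_inter.1 hm).1)).trans ?_
          refine Finset.sum_le_sum fun E _ => ?_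
          apply mul_le_mul_of_nonneg_left _ (mul_nonneg two_pos.le (h.nonneg E))
          have e1 : a E i = if E ⊆ A i then w A M i else 0 := by
            simp only [ha, c1, c2, not_false_eq_true, true_and]
          have e2 : b E j = if E ⊆ A j then w A M j else 0 := by
            simp only [hb, c3, c4, not_false_eq_true, true_and]
          rw [← e1, ← e2]
          have := mul_nonneg (hb0 E i) (ha0 E j)
          linarith
        · refine (tB_pair h (y := y) (z := z) i j (fun hm => c2 (Finset.mem_inter.1 hm).1)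
            (fun hm => c4 (Finset.mem_inter.1 hm).2)).trans ?_
          refine Finset.sum_le_sum fun E _ => ?_
          apply mul_le_mul_of_nonneg_left _ (mul_nonneg two_pos.le (h.nonneg E))
          have e1 : b E i = if E ⊆ A i then w A M i else 0 := by
            simp only [hb, c1, c2, not_false_eq_true, true_and]
          have e2 : a E j = if E ⊆ A j then w A M j else 0 := by
            simp only [ha, c3, c4, not_false_eq_true, true_and]
          rw [← e1, ← e2]
          have := mul_nonneg (ha0 E i) (hb0 E j)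
          linarith
      · refine Finset.sum_nonneg fun E _ => ?_
        apply mul_nonneg (mul_nonneg two_pos.le (h.nonneg E))
        exact add_nonneg (mul_nonneg (ha0 E i) (hb0 E j)) (mul_nonneg (hb0 E i) (ha0 E j))
    calc _ ≤ ∑ i ∈ F, ∑ j ∈ F, ∑ E ∈ V.powerset, 2 * c E * (a E i * b E j + b E i * a E j) :=
          Finset.sum_le_sum fun i _ => Finset.sum_le_sum fun j _ => hij i j
      _ = ∑ i ∈ F, ∑ E ∈ V.powerset, ∑ j ∈ F, 2 * c E * (a E i * b E j + b E i * a E j) := by
          refine Finset.sum_congr rfl fun i _ => ?_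
          rw [Finset.sum_comm]
      _ = ∑ E ∈ V.powerset, ∑ i ∈ F, ∑ j ∈ F, 2 * c E * (a E i * b E j + b E i * a E j) := by
          rw [Finset.sum_comm]
      _ = ∑ E ∈ V.powerset, 4 * c E * ((∑ i ∈ F, a E i) * (∑ i ∈ F, b E i)) := by
          refine Finset.sum_congr rfl fun E _ => ?_
          have e1 : ∑ i ∈ F, ∑ j ∈ F, a E i * b E j = (∑ i ∈ F, a E i) * (∑ i ∈ F, b E i) := by
            rw [Finset.sum_mul_sum]
          have e2 : ∑ i ∈ F, ∑ j ∈ F, b E i * a E j = (∑ i ∈ F, b E i) * (∑ i ∈ F, a E i) := by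
            rw [Finset.sum_mul_sum]
          have e3 : ∑ i ∈ F, ∑ j ∈ F, 2 * c E * (a E i * b E j + b E i * a E j) =
              2 * c E * ((∑ i ∈ F, ∑ j ∈ F, a E i * b E j) + ∑ i ∈ F, ∑ j ∈ F, b E i * a E j) := by
            rw [← Finset.sum_add_distrib, Finset.mul_sum]
            refine Finset.sum_congr rfl fun i _ => ?_
            rw [← Finset.sum_add_distrib, Finset.mul_sum]
          rw [e3, e1, e2]
          ring
  refine step2.trans ?_
  -- step 3
  have step3 : ∀ E ∈ V.powerset, 4 * c E * ((∑ i ∈ F, a E i) * (∑ i ∈ F, b E i)) ≤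
      1 / 2 * ((c (insert z E) - c E) * TE A F M (insert z E) ^ 2 +
        (c (insert y E) - c E) * TE A F (insert x₁ M) (insert y E) ^ 2) := by
    intro E _
    have m1 := h.mono z E
    have m2 := h.mono y E
    have s1 := sq_nonneg (TE A F M (insert z E))
    have s2 := sq_nonneg (TE A F (insert x₁ M) (insert y E))
    have hR : 0 ≤ 1 / 2 * ((c (insert z E) - c E) * TE A F M (insert z E) ^ 2 +
        (c (insert y E) - c E) * TE A F (insert x₁ M) (insert y E) ^ 2) := by
      have q1 := mul_nonneg (sub_nonneg.2 m1) s1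
      have q2 := mul_nonneg (sub_nonneg.2 m2) s2
      linarith
    by_cases hX : ∑ i ∈ F, a E i = 0
    · rw [hX, zero_mul, mul_zero]; exact hR
    by_cases hY : ∑ i ∈ F, b E i = 0
    · rw [hY, mul_zero, mul_zero]; exact hR
    obtain ⟨i, _, hi⟩ := Finset.exists_ne_zero_of_sum_ne_zero hX
    obtain ⟨j, _, hj⟩ := Finset.exists_ne_zero_of_sum_ne_zero hY
    have hi' : y ∈ A i ∧ z ∉ A i ∧ E ⊆ A i := by
      by_contra hc
      exact hi (by simp only [ha]; rw [if_neg hc])
    have hj' : z ∈ A j ∧ y ∉ A j ∧ E ⊆ A j := by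
      by_contra hc
      exact hj (by simp only [hb]; rw [if_neg hc])
    have p1 := h.span i z E hi'.2.2 hi'.2.1
    have p2 := h.span j y E hj'.2.2 hj'.2.1
    have hXle : ∑ i ∈ F, a E i ≤ TE A F (insert x₁ M) (insert y E) := by
      unfold TE
      refine Finset.sum_le_sum fun i _ => ?_
      have hw := w_pos A M i
      have hw2 : w A M i ≤ w A (insert x₁ M) i := by
        rw [w_insert A h1]
        split_ifs <;> linarith
      simp only [ha]
      by_cases hc : y ∈ A i ∧ z ∉ A i ∧ E ⊆ A i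
      · rw [if_pos hc, if_pos (Finset.insert_subset hc.1 hc.2.2)]
        exact hw2
      · rw [if_neg hc]
        split_ifs
        · linarith
        · exact le_rfl
    have hYle : ∑ i ∈ F, b E i ≤ TE A F M (insert z E) := by
      unfold TE
      refine Finset.sum_le_sum fun i _ => ?_
      have hw := w_pos A M i
      simp only [hb]
      by_cases hc : z ∈ A i ∧ y ∉ A i ∧ E ⊆ A i
      · rw [if_pos hc, if_pos (Finset.insert_subset hc.1 hc.2.2)]
      · rw [if_neg hc]
        split_ifs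
        · linarith
        · exact le_rfl
    have hX0 : 0 ≤ ∑ i ∈ F, a E i := Finset.sum_nonneg fun i _ => ha0 E i
    have hY0 : 0 ≤ ∑ i ∈ F, b E i := Finset.sum_nonneg fun i _ => hb0 E i
    have hc0 := h.nonneg E
    generalize (∑ i ∈ F, a E i) = X at *
    generalize (∑ i ∈ F, b E i) = Y at *
    have t1 : X ^ 2 ≤ TE A F (insert x₁ M) (insert y E) ^ 2 := pow_le_pow_left₀ hX0 hXle 2
    have t2 : Y ^ 2 ≤ TE A F M (insert z E) ^ 2 := pow_le_pow_left₀ hY0 hYle 2
    have t3 : 4 * c E * (X * Y) ≤ 2 * c E * (X ^ 2 + Y ^ 2) := by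
      have : 0 ≤ 2 * c E * (X - Y) ^ 2 := by positivity
      nlinarith
    have t4 : 4 * c E * Y ^ 2 ≤ (c (insert z E) - c E) * TE A F M (insert z E) ^ 2 :=
      mul_le_mul (by linarith) t2 (sq_nonneg _) (by linarith)
    have t5 : 4 * c E * X ^ 2 ≤
        (c (insert y E) - c E) * TE A F (insert x₁ M) (insert y E) ^ 2 :=
      mul_le_mul (by linarith) t1 (sq_nonneg _) (by linarith)
    linarith
  refine (Finset.sum_le_sum step3).trans ?_
  rw [← Finset.mul_sum, Finset.sum_add_distrib]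
  apply mul_le_mul_of_nonneg_left _ (by norm_num)
  rw [bb_eq A c F hz, bb_eq A c F hy]
  apply add_le_add
  · apply Finset.sum_le_sum_of_subset_of_nonneg
    · apply Finset.powerset_mono.2
      intro e he
      rw [hV, Finset.mem_sdiff] at he
      rw [Finset.mem_sdiff]
      refine ⟨Finset.mem_univ _, fun hm => he.2 ?_⟩
      exact Finset.mem_insert_of_mem (Finset.mem_insert_of_mem hm)
    · intro E _ _
      exact mul_nonneg (sub_nonneg.2 (h.mono z E)) (sq_nonneg _)
  · apply Finset.sum_le_sum_of_subset_of_nonneg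
    · apply Finset.powerset_mono.2
      intro e he
      rw [hV, Finset.mem_sdiff] at he
      rw [Finset.mem_sdiff]
      refine ⟨Finset.mem_univ _, fun hm => he.2 ?_⟩
      rw [Finset.mem_insert, Finset.mem_insert] at hm
      rw [Finset.mem_insert, Finset.mem_insert, Finset.mem_insert]
      rcases hm with hm | hm | hm
      · exact Or.inr (Or.inl hm)
      · exact Or.inl hm
      · exact Or.inr (Or.inr (Or.inr hm))
    · intro E _ _
      exact mul_nonneg (sub_nonneg.2 (h.mono y E)) (sq_nonneg _)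


theorem Tx_diff (A : ι → Finset β) (F : Finset ι) {M : Finset β} {x : β} (hx : x ∉ M) (y : β) :
    Tx A F (insert x M) y = Tx A F M y + TE A F M (insert y {x}) := by
  unfold Tx TE
  rw [← Finset.sum_add_distrib]
  apply Finset.sum_congr rfl
  intro i _
  rw [w_insert A hx i]
  simp only [Finset.insert_subset_iff, Finset.singleton_subset_iff]
  by_cases h1 : y ∈ A i
  · by_cases h2 : x ∈ A i
    · simp [h1, h2]; ring
    · simp [h1, h2]
  · simp [h1]

theorem TE_insert_le (A : ι → Finset β) (F : Finset ι) {M : Finset β} {x : β} (hx : x ∉ M)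
    (E : Finset β) : TE A F (insert x M) E ≤ 2 * TE A F M E := by
  unfold TE
  rw [Finset.mul_sum]
  apply Finset.sum_le_sum
  intro i _
  rw [w_insert A hx i]
  have := w_pos A M i
  split_ifs <;> linarith

theorem w_le_insert (A : ι → Finset β) {M : Finset β} {x : β} (hx : x ∉ M) (i : ι) :
    w A M i ≤ w A (insert x M) i := by
  rw [w_insert A hx i]
  have := w_pos A M i
  split_ifs <;> linarith

theorem bb_term [Fintype β] {A : ι → Finset β} {c : Finset β → ℝ} {l : ℝ} (h : Coef A c l)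
    (F : Finset ι) {M : Finset β} {z : β} (hz : z ∉ M) (S : Finset β) (hS : ∀ x ∈ S, x ∉ M ∧ x ≠ z) :
    ∑ x ∈ S, l * TE A F M (insert z {x}) ^ 2 ≤ bb A c F M z := by
  rw [bb_eq A c F hz]
  have h1 : ∑ x ∈ S, l * TE A F M (insert z {x}) ^ 2
      ≤ ∑ E ∈ S.image (fun x => ({x} : Finset β)),
        (c (insert z E) - c E) * TE A F M (insert z E) ^ 2 := by
    rw [Finset.sum_image (by
      intro x _ y _ hxy
      exact Finset.singleton_injective hxy)]
    apply Finset.sum_le_sum
    intro x hx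
    have h2 : c {x} = 0 := h.small _ (by simp)
    have h3 : l ≤ c (insert z {x}) := h.pair z x (hS x hx).2.symm
    rw [h2, sub_zero]
    exact mul_le_mul_of_nonneg_right h3 (sq_nonneg _)
  refine h1.trans ?_
  apply Finset.sum_le_sum_of_subset_of_nonneg
  · intro E hE
    rw [Finset.mem_image] at hE
    obtain ⟨x, hx, rfl⟩ := hE
    rw [Finset.mem_powerset, Finset.singleton_subset_iff, Finset.mem_sdiff]
    refine ⟨Finset.mem_univ x, ?_⟩
    rw [Finset.mem_insert]
    push Not
    exact ⟨(hS x hx).2, (hS x hx).1⟩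
  · intro E _ _
    apply mul_nonneg _ (sq_nonneg _)
    have := h.mono z E
    linarith

theorem round [Fintype β] {A : ι → Finset β} {c : Finset β → ℝ} {l : ℝ} (h : Coef A c l)
    {F : Finset ι} {M : Finset β}
    (hD : ∀ i ∈ F, 2 * ∑ j ∈ F, mm A c M i j - mm A c M i i ≤ w A M i) {x₁ x₂ y z : β}
    (h1 : x₁ ∉ M) (h2 : x₂ ∉ M) (hy : y ∉ M) (hz : z ∉ M) (h12 : x₁ ≠ x₂) (hy1 : y ≠ x₁)
    (hy2 : y ≠ x₂) (hz1 : z ≠ x₁) (hz2 : z ≠ x₂) (hyz : y ≠ z)
    (hg0 : gg A c F M z ≤ gg A c F M x₁)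
    (hg1 : gg A c F (insert x₁ M) y ≤ gg A c F (insert x₁ M) x₂) :
    LL A c F M - 3 / l ≤
      LL A c (F.filter (fun i => y ∉ A i ∧ z ∉ A i)) (insert x₂ (insert x₁ M)) := by
  have h2' : x₂ ∉ insert x₁ M := by
    rw [Finset.mem_insert]; push Not; exact ⟨h12.symm, h2⟩
  have hy' : y ∉ insert x₁ M := by
    rw [Finset.mem_insert]; push Not; exact ⟨hy1, hy⟩
  set M1 := insert x₁ M with hM1
  set M2 := insert x₂ M1 with hM2
  have eF := LL_filter A c F M2 y z
  have e1 : LL A c F M1 = LL A c F M + gg A c F M x₁ + bb A c F M x₁ := LL_insert A c F h1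
  have e2 : LL A c F M2 = LL A c F M1 + gg A c F M1 x₂ + bb A c F M1 x₂ := LL_insert A c F h2'
  have g0 : gg A c F M z = Tx A F M z - Px A c F M z + bb A c F M z := rfl
  have g1 : gg A c F M1 y = Tx A F M1 y - Px A c F M1 y + bb A c F M1 y := rfl
  -- the sum of the pair inequalities
  have hpair : bb A c F M z + bb A c F M1 y
      - (∑ i ∈ F, ∑ j ∈ F, if y ∈ A i ∪ A j ∧ z ∈ A i ∪ A j then mm A c M i j - ll A c M x₁ i j else 0)
      ≤ - Px A c F M z + bb A c F M z + bb A c F M x₁ - Px A c F M1 y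
        + bb A c F M1 y + bb A c F M1 x₂
        + Px A c F M2 y + Px A c F M2 z
        - (∑ i ∈ F, ∑ j ∈ F, if y ∈ A i ∪ A j ∧ z ∈ A i ∪ A j then mm A c M2 i j else 0) := by
    have h3 : ∑ i ∈ F, ∑ j ∈ F, (ll A c M z i j + ll A c M1 y i j
      - (if y ∈ A i ∪ A j ∧ z ∈ A i ∪ A j then mm A c M i j - ll A c M x₁ i j else 0)) ≤
      ∑ i ∈ F, ∑ j ∈ F, (- uu A c M z i j + ll A c M z i j + ll A c M x₁ i j - uu A c M1 y i j
        + ll A c M1 y i j + ll A c M1 x₂ i j
        + uu A c M2 y i j + uu A c M2 z i j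
        - (if y ∈ A i ∪ A j ∧ z ∈ A i ∪ A j then mm A c M2 i j else 0)) :=
      Finset.sum_le_sum (fun i _ => Finset.sum_le_sum (fun j _ => pair_ineq h h1 h2' hy' hz i j))
    simp only [Finset.sum_sub_distrib, Finset.sum_add_distrib, Finset.sum_neg_distrib] at h3
    unfold bb Px
    linarith
  -- splitting Q
  have mmnn : ∀ i j, 0 ≤ mm A c M i j := by
    intro i j
    unfold mm kk
    have := w_pos A M i
    have := w_pos A M j
    have : 0 ≤ ∑ E ∈ ((A i ∩ A j) \ M).powerset, c E := Finset.sum_nonneg (fun E _ => h.nonneg E)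
    positivity
  have hlm : ∀ i j, ll A c M x₁ i j ≤ mm A c M i j := by
    intro i j
    refine (ll_le_uu h M x₁ i j).trans ?_
    unfold uu
    split_ifs
    · exact le_refl _
    · exact mmnn i j
  have hQ : (∑ i ∈ F, ∑ j ∈ F, if y ∈ A i ∪ A j ∧ z ∈ A i ∪ A j then
      mm A c M i j - ll A c M x₁ i j else 0)
      ≤ (∑ i ∈ F, ∑ j ∈ F, if (y ∈ A i ∧ z ∈ A i) ∨ (y ∈ A j ∧ z ∈ A j) then mm A c M i j else 0)
        + (∑ i ∈ F, ∑ j ∈ F, if (y ∈ A i ∧ z ∉ A i ∧ z ∈ A j ∧ y ∉ A j) ∨
        (z ∈ A i ∧ y ∉ A i ∧ y ∈ A j ∧ z ∉ A j) then mm A c M i j - ll A c M x₁ i j else 0) := by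
    rw [← Finset.sum_add_distrib]
    apply Finset.sum_le_sum
    intro i _
    rw [← Finset.sum_add_distrib]
    apply Finset.sum_le_sum
    intro j _
    have a1 := mmnn i j
    have a2 := hlm i j
    have a3 := ll_nonneg h h1 i j
    simp only [Finset.mem_union]
    by_cases b1 : y ∈ A i <;> by_cases b2 : z ∈ A i <;> by_cases b3 : y ∈ A j <;>
      by_cases b4 : z ∈ A j <;> simp [b1, b2, b3, b4] <;> linarith
  have hA := typeA h hD y z
  have hB := typeB h F h1 hy' hz hyz
  have hS : (∑ i ∈ F, if y ∈ A i ∧ z ∈ A i then w A M i else 0)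
      ≤ ∑ i ∈ F, if y ∈ A i ∧ z ∈ A i then w A M2 i else 0 := by
    apply Finset.sum_le_sum
    intro i _
    split_ifs
    · exact (w_le_insert A h1 i).trans (w_le_insert A h2' i)
    · exact le_refl _
  have t1 := Tx_diff A F h2' y
  have t2 := Tx_diff A F h2' z
  have t3 := Tx_diff A F h1 z
  have t4 := TE_insert_le A F h1 (insert z {x₂})
  have b1 := bb_term h F hz {x₁, x₂} (by
    intro x hx
    rw [Finset.mem_insert, Finset.mem_singleton] at hx
    rcases hx with rfl | rfl
    · exact ⟨h1, hz1.symm⟩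
    · exact ⟨h2, hz2.symm⟩)
  rw [Finset.sum_pair h12] at b1
  have b2 := bb_term h F hy' {x₂} (by
    intro x hx
    rw [Finset.mem_singleton] at hx
    subst hx
    exact ⟨h2', hy2.symm⟩)
  rw [Finset.sum_singleton] at b2
  rw [← hM2] at t1 t2
  rw [← hM1] at t3 t4 hB
  have hl := h.lpos
  generalize TE A F M1 (insert y {x₂}) = a at *
  generalize TE A F M (insert z {x₁}) = b at *
  generalize TE A F M (insert z {x₂}) = d at *
  have f1 : -(1 / (2 * l)) ≤ -a + l * a ^ 2 / 2 := by
    have : -a + l * a ^ 2 / 2 + 1 / (2 * l) = (l * a - 1) ^ 2 / (2 * l) := by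
      field_simp; ring
    have h3 : 0 ≤ (l * a - 1) ^ 2 / (2 * l) := by positivity
    linarith
  have f2 : -(1 / (2 * l)) ≤ -b + l * b ^ 2 / 2 := by
    have : -b + l * b ^ 2 / 2 + 1 / (2 * l) = (l * b - 1) ^ 2 / (2 * l) := by
      field_simp; ring
    have h3 : 0 ≤ (l * b - 1) ^ 2 / (2 * l) := by positivity
    linarith
  have f3 : -(2 / l) ≤ -(2 * d) + l * d ^ 2 / 2 := by
    have : -(2 * d) + l * d ^ 2 / 2 + 2 / l = (l * d - 2) ^ 2 / (2 * l) := by
      field_simp; ring
    have h3 : 0 ≤ (l * d - 2) ^ 2 / (2 * l) := by positivity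
    linarith
  have f4 : 3 / l = 1 / (2 * l) + 1 / (2 * l) + 2 / l := by
    field_simp; norm_num
  rw [eF, e2, e1, f4]
  rw [g0] at hg0
  rw [g1] at hg1
  linarith

end Pool.Agent.Maker22
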