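import Pool.Agent.Maker22.Round
import Pool.Agent.Maker22.Game

/-!
Maker's criterion in the (2:2) game.
-/

set_option autoImplicit false
set_option linter.unusedSectionVars false
set_option linter.unusedVariables false

namespace Pool.Agent.Maker22

open Finset

variable {β ι : Type*} [DecidableEq β] [DecidableEq ι]

/-- removal inequality for an optimal subfamily -/
lemma opt_D {A : ι → Finset β} {c : Finset β → ℝ} {l : ℝ} (h : Coef A c l) {F Al : Finset ι}
    {M : Finset β} (hF : F ⊆ Al) (hopt : ∀ G ⊆ Al, LL A c G M ≤ LL A c F M) :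
    ∀ i ∈ F, 2 * ∑ j ∈ F, mm A c M i j - mm A c M i i ≤ w A M i := by
  intro i hi
  have h1 := hopt (F.erase i) ((Finset.erase_subset _ _).trans hF)
  have hsym : ∀ a b, mm A c M a b = mm A c M b a := by
    intro a b
    unfold mm
    rw [Finset.inter_comm (A a) (A b)]
    ring
  have e1 : TT A F M = TT A (F.erase i) M + w A M i := by
    unfold TT
    rw [Finset.sum_erase_add _ _ hi]
  have e2 : PP A c F M = PP A c (F.erase i) M + (2 * ∑ j ∈ F, mm A c M i j - mm A c M i i) := by
    unfold PP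
    rw [← Finset.sum_erase_add F (fun a => ∑ j ∈ F, mm A c M a j) hi]
    have e3 : ∀ a, ∑ j ∈ F, mm A c M a j = ∑ j ∈ F.erase i, mm A c M a j + mm A c M a i := by
      intro a
      rw [Finset.sum_erase_add _ _ hi]
    have e4 : ∑ a ∈ F.erase i, ∑ j ∈ F, mm A c M a j =
        ∑ a ∈ F.erase i, ∑ j ∈ F.erase i, mm A c M a j + ∑ a ∈ F.erase i, mm A c M i a := by
      rw [← Finset.sum_add_distrib]
      exact Finset.sum_congr rfl (fun a _ => by rw [e3 a, hsym a i])
    have e5 := e3 i
    rw [e4]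
    linarith
  unfold LL at h1
  linarith

lemma mm_nonneg {A : ι → Finset β} {c : Finset β → ℝ} {l : ℝ} (h : Coef A c l) (M : Finset β)
    (i j : ι) : 0 ≤ mm A c M i j := by
  unfold mm kk
  exact mul_nonneg (mul_nonneg (w_pos _ _ _).le (w_pos _ _ _).le)
    (Finset.sum_nonneg (fun E _ => h.nonneg E))

lemma gg_nonneg {A : ι → Finset β} {c : Finset β → ℝ} {l : ℝ} (h : Coef A c l) {F : Finset ι}
    {M : Finset β}
    (hD : ∀ i ∈ F, 2 * ∑ j ∈ F, mm A c M i j - mm A c M i i ≤ w A M i) {x : β} (hx : x ∉ M) :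
    0 ≤ gg A c F M x := by
  have h1 := typeA h hD x x
  have h2 : 0 ≤ bb A c F M x :=
    Finset.sum_nonneg (fun i _ => Finset.sum_nonneg (fun j _ => ll_nonneg h hx i j))
  have h3 : (∑ i ∈ F, ∑ j ∈ F, if (x ∈ A i ∧ x ∈ A i) ∨ (x ∈ A j ∧ x ∈ A j) then mm A c M i j
      else 0) = Px A c F M x := by
    unfold Px uu
    refine Finset.sum_congr rfl (fun i _ => Finset.sum_congr rfl (fun j _ => ?_))
    simp only [and_self, Finset.mem_union]
  have h4 : (∑ i ∈ F, if x ∈ A i ∧ x ∈ A i then w A M i else 0) = Tx A F M x := by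
    unfold Tx
    refine Finset.sum_congr rfl (fun i _ => ?_)
    simp only [and_self]
  rw [h3, h4] at h1
  unfold gg
  linarith

lemma gg_zero {A : ι → Finset β} {c : Finset β → ℝ} {F : Finset ι} {M : Finset β} {d : β}
    (hd : ∀ i ∈ F, d ∉ A i) : gg A c F M d = 0 := by
  have h1 : Tx A F M d = 0 := Finset.sum_eq_zero (fun i hi => if_neg (hd i hi))
  have h2 : Px A c F M d = 0 := by
    refine Finset.sum_eq_zero (fun i hi => Finset.sum_eq_zero (fun j hj => ?_))
    unfold uu
    rw [if_neg]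
    rw [Finset.mem_union]
    rintro (h | h)
    · exact hd i hi h
    · exact hd j hj h
  have h3 : bb A c F M d = 0 := by
    refine Finset.sum_eq_zero (fun i hi => Finset.sum_eq_zero (fun j hj => ?_))
    unfold ll
    rw [if_neg]
    rw [Finset.mem_inter]
    rintro ⟨h, _⟩
    exact hd i hi h
  unfold gg
  rw [h1, h2, h3]
  ring

/-- Maker's criterion -/
theorem maker_wins [Fintype β] {A : ι → Finset β} {c : Finset β → ℝ} {l : ℝ} (h : Coef A c l)
    (E : Finset β) (F : Finset ι) (hA : ∀ i ∈ F, A i ⊆ E) (d : β) (hd : d ∉ E)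
    (hbig : 3 / (2 * l) * (E.card : ℝ) < LL A c F ∅) :
    ∃ σ : List (Finset β) → Finset β,
      (∀ h : List (Finset β), Legal E h → Follows σ h → h.length % 2 = 0 →
        (free E h).Nonempty → IsMove E h (σ h)) ∧
      (∀ h : List (Finset β), Legal E h → Follows σ h → free E h = ∅ →
        ∃ i ∈ F, A i ⊆ own E 0 h) := by
  have hl := h.lpos
  set Good : Finset β → Finset β → Prop := fun M B =>
    ∃ G : Finset ι, G ⊆ F ∧ (∀ i ∈ G, Disjoint (A i) B) ∧
      LL A c F ∅ - 3 / (2 * l) * (M.card : ℝ) ≤ LL A c G M with hGood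
  refine exists_strategy E Good (fun X => ∃ i ∈ F, A i ⊆ X) ?_ ?_ ?_
  · exact ⟨F, Finset.Subset.refl _, fun i _ => Finset.disjoint_empty_right _, by simp⟩
  · rintro M B hM hB hMB ⟨G0, hG0F, hG0B, hG0⟩ hcard
    -- the optimal subfamily
    set Al := F.filter (fun i => Disjoint (A i) B) with hAl
    obtain ⟨G, hGm, hGmax⟩ := Finset.exists_max_image Al.powerset (fun G => LL A c G M)
      ⟨∅, Finset.empty_mem_powerset _⟩
    rw [Finset.mem_powerset] at hGm
    have hopt : ∀ G' ⊆ Al, LL A c G' M ≤ LL A c G M := fun G' hG' =>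
      hGmax G' (Finset.mem_powerset.2 hG')
    have hD := opt_D h hGm hopt
    have hG0Al : G0 ⊆ Al := fun i hi => Finset.mem_filter.2 ⟨hG0F hi, hG0B i hi⟩
    have hLG : LL A c F ∅ - 3 / (2 * l) * (M.card : ℝ) ≤ LL A c G M :=
      hG0.trans (hopt G0 hG0Al)
    set R := E \ (M ∪ B) with hR
    have hRM : ∀ x ∈ R, x ∉ M := by
      intro x hx hxM
      rw [hR, Finset.mem_sdiff] at hx
      exact hx.2 (Finset.mem_union_left _ hxM)
    have hRB : ∀ x ∈ R, x ∉ B := by
      intro x hx hxM
      rw [hR, Finset.mem_sdiff] at hx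
      exact hx.2 (Finset.mem_union_right _ hxM)
    obtain ⟨x₁, hx₁, hx₁max⟩ := Finset.exists_max_image R (fun x => gg A c G M x)
      (Finset.card_pos.1 (by omega))
    obtain ⟨x₂, hx₂, hx₂max⟩ := Finset.exists_max_image (R.erase x₁)
      (fun x => gg A c G (insert x₁ M) x)
      (Finset.card_pos.1 (by rw [Finset.card_erase_of_mem hx₁]; omega))
    rw [Finset.mem_erase] at hx₂
    have hx12 : x₁ ≠ x₂ := fun e => hx₂.1 e.symm
    refine ⟨{x₁, x₂}, ?_, Finset.card_pair hx12, ?_⟩
    · intro x hx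
      rw [Finset.mem_insert, Finset.mem_singleton] at hx
      rcases hx with rfl | rfl
      · exact hx₁
      · exact hx₂.2
    have hMu : M ∪ {x₁, x₂} = insert x₂ (insert x₁ M) := by
      ext x
      simp only [Finset.mem_union, Finset.mem_insert, Finset.mem_singleton]
      tauto
    have hcardM : ((M ∪ {x₁, x₂}).card : ℝ) = M.card + 2 := by
      rw [hMu, Finset.card_insert_of_notMem, Finset.card_insert_of_notMem (hRM x₁ hx₁)]
      · push_cast; ring
      · rw [Finset.mem_insert]
        rintro (e | e)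
        · exact hx12 e.symm
        · exact hRM x₂ hx₂.2 e
    have key : ∀ y z : β, y ∈ R → y ≠ x₁ → y ≠ x₂ → z ∉ M → z ≠ x₁ → z ≠ x₂ → y ≠ z →
        gg A c G M z ≤ gg A c G M x₁ → (∀ b : Finset β, (∀ e ∈ b, e = y ∨ e = z) →
          Good (M ∪ {x₁, x₂}) (B ∪ b)) := by
      intro y z hyR hy1 hy2 hzM hz1 hz2 hyz hg b hb
      have hr := round h hD (hRM x₁ hx₁) (hRM x₂ hx₂.2) (hRM y hyR) hzM hx12 hy1 hy2 hz1 hz2 hyz hg
        (hx₂max y (Finset.mem_erase.2 ⟨hy1, hyR⟩))
      refine ⟨G.filter (fun i => y ∉ A i ∧ z ∉ A i), ?_, ?_, ?_⟩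
      · intro i hi
        rw [Finset.mem_filter] at hi
        have := hGm hi.1
        rw [hAl, Finset.mem_filter] at this
        exact this.1
      · intro i hi
        rw [Finset.mem_filter] at hi
        have h2 := hGm hi.1
        rw [hAl, Finset.mem_filter] at h2
        rw [Finset.disjoint_union_right]
        refine ⟨h2.2, ?_⟩
        rw [Finset.disjoint_left]
        intro e he heb
        rcases hb e heb with rfl | rfl
        · exact hi.2.1 he
        · exact hi.2.2 he
      · rw [hcardM, hMu]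
        have e1 : 3 / (2 * l) * ((M.card : ℝ) + 2) = 3 / (2 * l) * (M.card : ℝ) + 3 / l := by
          field_simp
        rw [e1]
        linarith
    intro b hb hbc
    have hbR : ∀ x ∈ b, x ∈ R ∧ x ≠ x₁ ∧ x ≠ x₂ := by
      intro x hx
      have := hb hx
      simp only [Finset.mem_sdiff, Finset.mem_union, Finset.mem_insert, Finset.mem_singleton,
        not_or] at this
      refine ⟨?_, this.2.2.1, this.2.2.2⟩
      rw [hR, Finset.mem_sdiff, Finset.mem_union, not_or]
      exact ⟨this.1, this.2.1⟩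
    rcases hbc with hb2 | ⟨hb1, _⟩
    · obtain ⟨y, z, hyz, rfl⟩ := Finset.card_eq_two.1 hb2
      have hy := hbR y (by simp)
      have hz := hbR z (by simp)
      refine key y z hy.1 hy.2.1 hy.2.2 (hRM z hz.1) hz.2.1 hz.2.2 hyz (hx₁max z hz.1) _ ?_
      intro e he
      simpa using he
    · obtain ⟨y, rfl⟩ := Finset.card_eq_one.1 hb1
      have hy := hbR y (by simp)
      have hRE : ∀ x ∈ R, x ∈ E := fun x hx => (Finset.mem_sdiff.1 hx).1
      refine key y d hy.1 hy.2.1 hy.2.2 (fun e => hd (hM e)) (fun e => hd (e ▸ hRE x₁ hx₁))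
        (fun e => hd (e ▸ hRE x₂ hx₂.2)) (fun e => hd (e ▸ hRE y hy.1)) ?_ _ ?_
      · rw [gg_zero (d := d)]
        · exact gg_nonneg h hD (hRM x₁ hx₁)
        · intro i hi hdi
          have h2 := hGm hi
          rw [hAl, Finset.mem_filter] at h2
          exact hd (hA i h2.1 hdi)
      · intro e he
        rw [Finset.mem_singleton] at he
        exact Or.inl he
  · rintro M B hM hB hMB ⟨G, hGF, hGB, hG⟩ _
    have hc : (M.card : ℝ) ≤ E.card := by exact_mod_cast Finset.card_le_card hM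
    have h1 : 0 < LL A c G M := by
      have := mul_le_mul_of_nonneg_left hc (show (0:ℝ) ≤ 3 / (2 * l) by positivity)
      linarith
    have h2 : 0 ≤ PP A c G M :=
      Finset.sum_nonneg (fun i _ => Finset.sum_nonneg (fun j _ => mm_nonneg h M i j))
    have h3 : 0 < TT A G M := by unfold LL at h1; linarith
    obtain ⟨i, hi, _⟩ := Finset.exists_ne_zero_of_sum_ne_zero h3.ne'
    refine ⟨i, hGF hi, ?_⟩
    intro x hx
    rw [Finset.mem_sdiff]
    exact ⟨hA i (hGF hi) hx, fun hxB => Finset.disjoint_left.1 (hGB i hi) hx hxB⟩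

end Pool.Agent.Maker22
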